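import Pool.Agent.H88.L.H281R3.HT.Defs

/-!
# Derivations of a Weil cohomology: definitions
-/

open CategoryTheory AlgebraicGeometry

set_option autoImplicit false

universe u w

namespace Pool.Agent.H88.GP

open Pool.Agent.H914 Pool.Agent.H914.VarClass Pool.Agent.H914.VarClass.Obj
  Pool.Agent.H914.WeilCohomology

variable {k : Type u} [Field k] {𝒱 : VarClass k} {ops : CycleOps 𝒱}

/-- A family of derivations of the cohomology algebras of all varieties which are compatible with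
pull-backs, the grading, the orientations and the classes of algebraic cycles. -/
structure LieAct (W : WeilCohomology.{u, 0} ops) (Ξ : Type w) where
  /-- the derivations -/
  d : Ξ → ∀ X : 𝒱.Obj, W.H X →ₗ[W.K] W.H X
  /-- the weights -/
  mu : Ξ → W.K
  leib : ∀ ξ {X : 𝒱.Obj} (a b : W.H X), d ξ X (a * b) = d ξ X a * b + a * d ξ X b
  map : ∀ ξ {X Y : 𝒱.Obj} (f : X ⟶ Y) (a : W.H Y), d ξ X (W.map f a) = W.map f (d ξ Y a)
  gr : ∀ ξ {X : 𝒱.Obj} (i : ℕ), ∀ a ∈ W.gr X i, d ξ X a ∈ W.gr X i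
  tr : ∀ ξ {X : 𝒱.Obj} (a : W.H X), W.tr X (d ξ X a) = (X.dim : W.K) * mu ξ * W.tr X a
  cl : ∀ ξ {X : 𝒱.Obj} (j : ℕ), ∀ z ∈ algClasses W X j, d ξ X z = ((j : W.K) * mu ξ) • z

end Pool.Agent.H88.GP
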