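import Pool.Agent.H88.GP.Two

/-!
# Lie algebras of families of matrices of size two
-/

set_option linter.unusedSectionVars false
set_option autoImplicit false

namespace Pool.Agent.H88.GP

open Matrix Module

section one

variable {F : Type} [Field F] [CharZero F] {B : Type} [Fintype B] [DecidableEq B] {Ξ : Type*}

/-- There is no stable line of matrices of trace zero. -/
theorem no_eig (hB : Fintype.card B = 2) {A : Ξ → Matrix B B F}
    (hC : ∀ Z : Matrix B B F, (∀ ξ, Z * A ξ = A ξ * Z) → ∃ r : F, Z = r • (1 : Matrix B B F))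
    (hL : ∀ v : B → F, v ≠ 0 → ∃ ξ, ∀ r : F, A ξ *ᵥ v ≠ r • v)
    {s : Matrix B B F} (hs : s ∈ sl F B) (hs0 : s ≠ 0) :
    ∃ ξ, ∀ r : F, A ξ * s - s * A ξ ≠ r • s := by
  by_contra hcon
  push Not at hcon
  choose r hr using hcon
  have h2 := ch0 hB hs
  by_cases hd : s.det = 0
  · rw [hd, neg_zero, zero_smul] at h2
    obtain ⟨v, hv⟩ : ∃ v : B → F, s *ᵥ v ≠ 0 := by
      by_contra hcon
      push Not at hcon
      apply hs0
      ext i j
      have h3 := congrFun (hcon (Pi.single j 1)) i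
      rw [Matrix.mulVec_single_one] at h3
      simpa using h3
    set u := s *ᵥ v with hu
    have hsu : s *ᵥ u = 0 := by rw [hu, Matrix.mulVec_mulVec, h2, Matrix.zero_mulVec]
    -- the kernel is a line
    have hker : finrank F (LinearMap.ker s.mulVecLin) ≤ 1 := by
      have h3 : LinearMap.ker s.mulVecLin ≠ ⊤ := by
        intro h3
        apply hv
        have h4 : v ∈ LinearMap.ker s.mulVecLin := by rw [h3]; exact Submodule.mem_top
        exact h4
      have h4 := Submodule.finrank_lt h3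
      rw [Module.finrank_fintype_fun_eq_card, hB] at h4
      omega
    obtain ⟨v0, hv0⟩ := finrank_le_one_iff.1 hker
    have hline : ∀ w : B → F, s *ᵥ w = 0 → ∃ c : F, w = c • u := by
      intro w hw
      obtain ⟨a, ha⟩ := hv0 ⟨u, hsu⟩
      obtain ⟨b, hb⟩ := hv0 ⟨w, hw⟩
      have ha' : a • (v0 : B → F) = u := congrArg Subtype.val ha
      have hb' : b • (v0 : B → F) = w := congrArg Subtype.val hb
      have ha0 : a ≠ 0 := by
        rintro rfl
        rw [zero_smul] at ha'
        exact hv ha'.symm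
      refine ⟨b * a⁻¹, ?_⟩
      rw [← ha', smul_smul, mul_assoc, inv_mul_cancel₀ ha0, mul_one, hb']
    obtain ⟨ξ, hξ⟩ := hL u hv
    have h5 : s *ᵥ (A ξ *ᵥ u) = 0 := by
      have h6 : s * A ξ = A ξ * s - r ξ • s := by rw [← hr ξ]; abel
      rw [Matrix.mulVec_mulVec, h6, Matrix.sub_mulVec, ← Matrix.mulVec_mulVec, hsu,
        Matrix.mulVec_zero, Matrix.smul_mulVec, hsu, smul_zero, sub_zero]
    obtain ⟨c, hc⟩ := hline _ h5
    exact hξ c hc
  · have h3 : ∀ ξ, r ξ = 0 := by
      intro ξ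
      have h4 : (A ξ * s - s * A ξ) * s + s * (A ξ * s - s * A ξ) = 0 := by
        have : (A ξ * s - s * A ξ) * s + s * (A ξ * s - s * A ξ) =
            A ξ * (s * s) - (s * s) * A ξ := by noncomm_ring
        rw [this, h2, mul_smul_comm, smul_mul_assoc, mul_one, one_mul, sub_self]
      rw [hr, smul_mul_assoc, mul_smul_comm, h2, ← add_smul, smul_smul] at h4
      have h5 := congrArg trace h4
      rw [trace_smul, trace_one, hB, trace_zero, smul_eq_mul] at h5
      push_cast at h5
      have h6 : (r ξ) * (-4 * s.det) = 0 := by linear_combination h5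
      exact (mul_eq_zero.1 h6).resolve_right (mul_ne_zero (by norm_num) hd)
    obtain ⟨c, hc⟩ := hC s fun ξ => by
      have h4 := hr ξ
      rw [h3 ξ, zero_smul, sub_eq_zero] at h4
      exact h4.symm
    apply hs0
    have h4 := mem_sl.1 hs
    rw [hc, trace_smul, trace_one, hB, smul_eq_mul] at h4
    push_cast at h4
    rw [hc, (mul_eq_zero.1 h4).resolve_right two_ne_zero, zero_smul]

/-- A nonzero stable Lie subalgebra of trace zero matrices is everything. -/
theorem stable_eq (hB : Fintype.card B = 2) {A : Ξ → Matrix B B F}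
    (hirr : ∀ s ∈ sl F B, s ≠ 0 → ∃ ξ, ∀ r : F, A ξ * s - s * A ξ ≠ r • s)
    {h : Submodule F (Matrix B B F)} (h1 : h ≤ sl F B)
    (h2 : ∀ ξ, ∀ x ∈ h, A ξ * x - x * A ξ ∈ h)
    (h3 : ∀ x ∈ h, ∀ y ∈ h, x * y - y * x ∈ h) (h4 : h ≠ ⊥) : h = sl F B := by
  obtain ⟨s, hs, hs0⟩ := Submodule.exists_mem_ne_zero_of_ne_bot h4
  obtain ⟨g, hgs⟩ := hirr s (h1 hs) hs0
  set t := A g * s - s * A g with ht
  have hth : t ∈ h := h2 g s hs
  set c := s * t - t * s with hc
  have hch : c ∈ h := h3 s hs t hth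
  have hc0 : c ≠ 0 := by
    intro hc0
    obtain ⟨r, hr⟩ := centr hB (h1 hs) (h1 hth) hs0 (sub_eq_zero.1 hc0)
    exact hgs r hr
  have hst : LinearIndependent F ![s, t] := by
    rw [LinearIndependent.pair_iff' hs0]
    intro r hr
    exact hgs r hr.symm
  have hfin : ∀ (n : ℕ) (v : Fin n → Matrix B B F), LinearIndependent F v → (∀ i, v i ∈ h) →
      n ≤ finrank F h := by
    intro n v hv hvh
    have hv' : LinearIndependent F (fun i => (⟨v i, hvh i⟩ : h)) :=
      LinearIndependent.of_comp h.subtype hv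
    simpa using hv'.fintype_card_le_finrank
  have hle : finrank F h ≤ 3 := by
    rw [← finrank_sl (F := F) hB]
    exact Submodule.finrank_mono h1
  have hdone : 3 ≤ finrank F h → h = sl F B := by
    intro h5
    exact Submodule.eq_of_le_of_finrank_eq h1 (by rw [finrank_sl hB]; omega)
  by_cases hW : h ≤ Submodule.span F {s, t}
  · exfalso
    -- then the multiples of `c` are stable
    obtain ⟨g', hgc⟩ := hirr c (h1 hch) hc0
    have hbr : ∀ x ∈ h, ∀ y ∈ h, ∃ r : F, x * y - y * x = r • c := by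
      intro x hx y hy
      obtain ⟨a, b, rfl⟩ := Submodule.mem_span_pair.1 (hW hx)
      obtain ⟨a', b', rfl⟩ := Submodule.mem_span_pair.1 (hW hy)
      refine ⟨a * b' - b * a', ?_⟩
      rw [hc]
      simp only [add_mul, mul_add, smul_mul_smul_comm, smul_sub, sub_smul, mul_comm a' a,
        mul_comm b' b, mul_comm a' b, mul_comm b' a]
      abel
    obtain ⟨r, hr⟩ := hbr (A g' * s - s * A g') (h2 g' s hs) t hth
    obtain ⟨r', hr'⟩ := hbr s hs (A g' * t - t * A g') (h2 g' t hth)
    apply hgc (r + r')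
    rw [add_smul, ← hr, ← hr', hc]
    noncomm_ring
  · apply hdone
    obtain ⟨u, hu, huW⟩ := SetLike.not_le_iff_exists.1 hW
    have h5 : LinearIndependent F (Fin.cons u ![s, t] : Fin 3 → Matrix B B F) := by
      rw [linearIndependent_finCons]
      refine ⟨hst, ?_⟩
      intro h6
      apply huW
      rw [Matrix.range_cons, Matrix.range_cons, Matrix.range_empty, Set.union_empty,
        Set.singleton_union] at h6
      exact h6
    refine hfin 3 _ h5 fun i => ?_
    fin_cases i
    · exact hu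
    · exact hs
    · exact hth

end one

section fam

variable {F : Type} [Field F] [CharZero F] {J : Type} {B : J → Type} [∀ j, Fintype (B j)]
  [∀ j, DecidableEq (B j)] {Ξ : Type*}

/-- The conditions on the matrices: they are irreducible, have only scalar endomorphisms, prescribed
traces and no homomorphisms up to twists. -/
structure LData (A : Ξ → ∀ j, Matrix (B j) (B j) F) (p : J → ℕ) (μ : Ξ → F) : Prop where
  dim : ∀ j, Fintype.card (B j) = 2
  tr : ∀ ξ j, trace (A ξ j) = (2 * (p j : F) + 1) * μ ξ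
  scal : ∀ j (Z : Matrix (B j) (B j) F), (∀ ξ, Z * A ξ j = A ξ j * Z) → ∃ r : F, Z = r • 1
  line : ∀ j (v : B j → F), v ≠ 0 → ∃ ξ, ∀ r : F, A ξ j *ᵥ v ≠ r • v
  hom : ∀ i j, i ≠ j → ∀ Z : Matrix (B i) (B j) F,
    (∀ ξ, A ξ i * Z - Z * A ξ j = (((p i : F) - p j) * μ ξ) • Z) → Z = 0

variable {A : Ξ → ∀ j, Matrix (B j) (B j) F} {p : J → ℕ} {μ : Ξ → F}
  {U : Submodule F (∀ j, Matrix (B j) (B j) F)}

/-- The derived algebra. -/
def LD (U : Submodule F (∀ j, Matrix (B j) (B j) F)) :
    Submodule F (∀ j, Matrix (B j) (B j) F) :=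
  Submodule.span F {z | ∃ x ∈ U, ∃ y ∈ U, z = x * y - y * x}

theorem LD_le (hbr : ∀ x ∈ U, ∀ y ∈ U, x * y - y * x ∈ U) : LD U ≤ U := by
  rw [LD, Submodule.span_le]
  rintro _ ⟨x, hx, y, hy, rfl⟩
  exact hbr x hx y hy

theorem LD_brk' {x y : ∀ j, Matrix (B j) (B j) F} (hx : x ∈ U) (hy : y ∈ U) :
    x * y - y * x ∈ LD U := Submodule.subset_span ⟨x, hx, y, hy, rfl⟩

theorem LD_brk (hbr : ∀ x ∈ U, ∀ y ∈ U, x * y - y * x ∈ U) :
    ∀ x ∈ LD U, ∀ y ∈ LD U, x * y - y * x ∈ LD U :=
  fun _ hx _ hy => LD_brk' (LD_le hbr hx) (LD_le hbr hy)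

theorem LD_sl (i : J) : ∀ x ∈ LD U, x i ∈ sl F (B i) := by
  have h : LD U ≤ (sl F (B i)).comap (LinearMap.proj i) := by
    rw [LD, Submodule.span_le]
    rintro _ ⟨a, _, b, _, rfl⟩
    exact brk_sl _ _
  exact fun x hx => h hx

/-- The projections of the derived algebra. -/
theorem full (H : LData A p μ) (hA : ∀ ξ, A ξ ∈ U)
    (hbr : ∀ x ∈ U, ∀ y ∈ U, x * y - y * x ∈ U) (i : J) :
    ∀ y ∈ sl F (B i), ∃ z ∈ LD U, z i = y := by
  have hirr : ∀ s ∈ sl F (B i), s ≠ 0 → ∃ ξ, ∀ r : F, A ξ i * s - s * A ξ i ≠ r • s :=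
    fun s hs hs0 => no_eig (H.dim i) (H.scal i) (H.line i) hs hs0
  have h1 := stable_eq (H.dim i) hirr (h := (LD U).map (LinearMap.proj i)) (by
    rintro _ ⟨x, hx, rfl⟩
    exact LD_sl i x hx) (by
    rintro ξ _ ⟨x, hx, rfl⟩
    exact ⟨A ξ * x - x * A ξ, LD_brk' (hA ξ) (LD_le hbr hx), rfl⟩) (by
    rintro _ ⟨x, hx, rfl⟩ _ ⟨y, hy, rfl⟩
    exact ⟨x * y - y * x, LD_brk hbr x hx y hy, rfl⟩) (by
    intro hbot
    -- all matrices commute
    have hcom : ∀ ξ η, A ξ i * A η i = A η i * A ξ i := by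
      intro ξ η
      have h2 : A ξ i * A η i - A η i * A ξ i ∈ (LD U).map (LinearMap.proj i) :=
        ⟨A ξ * A η - A η * A ξ, LD_brk' (hA ξ) (hA η), rfl⟩
      rw [hbot, Submodule.mem_bot, sub_eq_zero] at h2
      exact h2
    have hne : Nonempty (B i) := by
      rw [← Fintype.card_pos_iff, H.dim i]
      exact two_pos
    obtain ⟨a⟩ := hne
    obtain ⟨ξ, hξ⟩ := H.line i (Pi.single a 1) (by
      intro h0
      have := congrFun h0 a
      rw [Pi.single_eq_same, Pi.zero_apply] at this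
      exact one_ne_zero this)
    obtain ⟨r, hr⟩ := H.scal i (A ξ i) fun η => hcom ξ η
    apply hξ r
    rw [hr, Matrix.smul_mulVec, Matrix.one_mulVec])
  intro y hy
  rw [← h1] at hy
  obtain ⟨z, hz, hzy⟩ := hy
  exact ⟨z, hz, hzy⟩

/-- **Independence of two members.** -/
theorem pair (H : LData A p μ) (hA : ∀ ξ, A ξ ∈ U)
    (hbr : ∀ x ∈ U, ∀ y ∈ U, x * y - y * x ∈ U) {i j : J} (hij : i ≠ j) :
    ∃ x ∈ LD U, x j = 0 ∧ x i ≠ 0 := by
  have fi := full H hA hbr i
  have fj := full H hA hbr j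
  have hi := H.dim i
  have hj := H.dim j
  by_contra hcon
  push Not at hcon
  -- the linear map
  let πj : LD U →ₗ[F] sl F (B j) := LinearMap.codRestrict (sl F (B j))
    ((LinearMap.proj j : (∀ j, Matrix (B j) (B j) F) →ₗ[F] _) ∘ₗ (LD U).subtype)
    (fun z => LD_sl j _ z.2)
  have hπj : LinearMap.range πj = ⊤ := by
    rw [LinearMap.range_eq_top]
    rintro ⟨y, hy⟩
    obtain ⟨z, hz, hzy⟩ := fj y hy
    exact ⟨⟨z, hz⟩, Subtype.ext hzy⟩
  obtain ⟨σ, hσ⟩ := πj.exists_rightInverse_of_surjective hπj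
  have hσ' : ∀ y : sl F (B j), (σ y : ∀ j, Matrix (B j) (B j) F) j = y := by
    intro y
    have h := LinearMap.congr_fun hσ y
    exact congrArg Subtype.val h
  let φ₀ : sl F (B j) →ₗ[F] Matrix (B i) (B i) F :=
    (LinearMap.proj i : (∀ j, Matrix (B j) (B j) F) →ₗ[F] _) ∘ₗ (LD U).subtype ∘ₗ σ
  have hA' : ∀ (z : ∀ j, Matrix (B j) (B j) F) (hz : z ∈ LD U),
      φ₀ ⟨z j, LD_sl j _ hz⟩ = z i := by
    intro z hz
    have h1 : (σ ⟨z j, LD_sl j _ hz⟩ : ∀ j, Matrix (B j) (B j) F) - z ∈ LD U :=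
      Submodule.sub_mem _ (σ _).2 hz
    have h2 := hcon _ h1 (by
      change (σ ⟨z j, LD_sl j _ hz⟩ : ∀ j, Matrix (B j) (B j) F) j - z j = 0
      rw [hσ', sub_self])
    exact sub_eq_zero.1 h2
  obtain ⟨φ, hφ⟩ := LinearMap.exists_extend φ₀
  have hB : ∀ (z : ∀ j, Matrix (B j) (B j) F), z ∈ LD U → φ (z j) = z i := by
    intro z hz
    have h := LinearMap.congr_fun hφ ⟨z j, LD_sl j _ hz⟩
    rw [hA' z hz] at h
    exact h
  have hsl : ∀ x ∈ sl F (B j), φ x ∈ sl F (B i) := by
    intro x hx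
    obtain ⟨z, hz, rfl⟩ := fj x hx
    rw [hB z hz]
    exact LD_sl i _ hz
  have hbr' : ∀ x ∈ sl F (B j), ∀ y ∈ sl F (B j), φ (x * y - y * x) = φ x * φ y - φ y * φ x := by
    intro x hx y hy
    obtain ⟨z, hz, rfl⟩ := fj x hx
    obtain ⟨w, hw, rfl⟩ := fj y hy
    rw [hB z hz, hB w hw]
    exact hB (z * w - w * z) (LD_brk hbr _ hz _ hw)
  -- injectivity
  have hinj : ∀ x ∈ sl F (B j), φ x = 0 → x = 0 := by
    let φ₁ : sl F (B j) →ₗ[F] sl F (B i) := LinearMap.codRestrict (sl F (B i))
      (φ ∘ₗ (sl F (B j)).subtype) (fun x => hsl x.1 x.2)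
    have hsurj : Function.Surjective φ₁ := by
      rintro ⟨y, hy⟩
      obtain ⟨z, hz, hzy⟩ := fi y hy
      exact ⟨⟨z j, LD_sl j _ hz⟩, Subtype.ext ((hB z hz).trans hzy)⟩
    have hinj : Function.Injective φ₁ := by
      rw [LinearMap.injective_iff_surjective_of_finrank_eq_finrank]
      · exact hsurj
      · rw [finrank_sl hj, finrank_sl hi]
    intro x hx h0
    have h1 : φ₁ ⟨x, hx⟩ = φ₁ 0 := by
      rw [map_zero]
      exact Subtype.ext h0
    exact congrArg Subtype.val (hinj h1)
  -- the trace form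
  have hind : ∀ x ∈ sl F (B j), x ≠ 0 → ∀ y ∈ sl F (B j), (∀ r : F, y ≠ r • x) →
      trace (φ x * φ y) = trace (x * y) := by
    intro x hx hx0 y hy hxy
    have h1 := congrArg φ (dbl hj hx hy)
    rw [hbr' x hx _ (brk_sl x y), hbr' x hx y hy, dbl hi (hsl x hx) (hsl y hy), map_sub,
      map_smul, map_smul] at h1
    have h2 : (4 * x.det - 4 * (φ x).det) • φ y +
        (2 * trace (x * y) - 2 * trace (φ x * φ y)) • φ x = 0 := by
      have e : (4 * x.det - 4 * (φ x).det) • φ y +
          (2 * trace (x * y) - 2 * trace (φ x * φ y)) • φ x =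
          ((-4 * (φ x).det) • φ y - (2 * trace (φ x * φ y)) • φ x) -
            ((-4 * x.det) • φ y - (2 * trace (x * y)) • φ x) := by
        module
      rw [e, h1, sub_self]
    have hφx : φ x ≠ 0 := fun h => hx0 (hinj x hx h)
    have hli : LinearIndependent F ![φ x, φ y] := by
      rw [LinearIndependent.pair_iff' hφx]
      intro r hr
      apply hxy r
      have h3 : φ (y - r • x) = 0 := by rw [map_sub, map_smul, hr, sub_self]
      exact sub_eq_zero.1 (hinj _ (Submodule.sub_mem _ hy (Submodule.smul_mem _ r hx)) h3)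
    have h3 := LinearIndependent.pair_iff.1 hli (2 * trace (x * y) - 2 * trace (φ x * φ y))
      (4 * x.det - 4 * (φ x).det) (by rw [add_comm]; exact h2)
    have h4 : (2 : F) * (trace (x * y) - trace (φ x * φ y)) = 0 := by linear_combination h3.1
    have h5 := (mul_eq_zero.1 h4).resolve_left (by norm_num)
    exact (sub_eq_zero.1 h5).symm
  obtain ⟨h, hh, e, he, f, hf, hhe, hhf, hef, he0, hdec⟩ := std (F := F) hj
  have htr : ∀ x ∈ sl F (B j), ∀ y ∈ sl F (B j), trace (φ x * φ y) = trace (x * y) := by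
    intro x hx y hy
    by_cases hx0 : x = 0
    · rw [hx0, map_zero, zero_mul, zero_mul, trace_zero, trace_zero]
    · by_cases hxy : ∃ r : F, y = r • x
      · obtain ⟨r, rfl⟩ := hxy
        -- choose an element which is not a multiple of `x`
        obtain ⟨w, hw, hwx⟩ : ∃ w ∈ sl F (B j), ∀ r : F, w ≠ r • x := by
          by_contra hc
          push Not at hc
          obtain ⟨p, hp⟩ := hc h hh
          obtain ⟨q, hq⟩ := hc e he
          have h6 : h * e - e * h = 0 := by
            rw [hp, hq, smul_mul_smul_comm, smul_mul_smul_comm, mul_comm p q, sub_self]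
          rw [hhe] at h6
          exact (smul_ne_zero two_ne_zero he0) h6
        have h1 := hind x hx hx0 w hw hwx
        have h2 := hind x hx hx0 (w + x) (Submodule.add_mem _ hw hx) (by
          intro q hq
          apply hwx (q - 1)
          rw [sub_smul, one_smul, ← hq]
          abel)
        rw [map_add, mul_add, trace_add, mul_add, trace_add, h1] at h2
        have h3 := add_left_cancel h2
        rw [map_smul, mul_smul_comm, mul_smul_comm, trace_smul, trace_smul, h3]
      · push Not at hxy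
        exact hind x hx hx0 y hy hxy
  obtain ⟨ψ, hψ1, hψφ, hψ⟩ := extend_hom hj hi φ hsl hbr' htr
  obtain ⟨T, T', hTT', hT'T, hT⟩ := exists_intertwiner hj hi ψ hψ1 hψ
  have hTy : ∀ y ∈ sl F (B j), φ y * T = T * y := by
    intro y hy
    rw [← hψφ y hy, hT]
  have hTy' : ∀ y ∈ sl F (B j), T' * φ y = y * T' := by
    intro y hy
    calc T' * φ y = T' * (φ y * T) * T' := by
          rw [Matrix.mul_assoc, Matrix.mul_assoc, hTT', Matrix.mul_one]
      _ = y * T' := by rw [hTy y hy, ← Matrix.mul_assoc, hT'T, Matrix.one_mul]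
  have hT0 : T ≠ 0 := by
    intro h
    rw [h, Matrix.zero_mul] at hTT'
    have h4 : trace (1 : Matrix (B i) (B i) F) = 0 := by rw [← hTT', trace_zero]
    rw [trace_one, hi] at h4
    exact two_ne_zero h4
  -- all elements of the Lie algebra
  have hW : ∀ x ∈ U, ∃ r : F, x i * T - T * x j = r • T := by
    intro x hx
    set W := T' * (x i * T - T * x j) with hWdef
    have hc : ∀ y ∈ sl F (B j), W * y = y * W := by
      intro y hy
      obtain ⟨z, hz, rfl⟩ := fj y hy
      have h1 := hB (x * z - z * x) (LD_brk' hx (LD_le hbr hz))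
      change φ (x j * z j - z j * x j) = x i * z i - z i * x i at h1
      have h2 := hTy _ (brk_sl (x j) (z j))
      rw [h1] at h2
      have h3 : z i * T = T * z j := by rw [← hB z hz, hTy _ (LD_sl j _ hz)]
      have h4 : (x i * T - T * x j) * z j = z i * (x i * T - T * x j) := by
        calc (x i * T - T * x j) * z j = x i * (T * z j) - T * x j * z j := by
              rw [Matrix.sub_mul, Matrix.mul_assoc]
          _ = x i * (z i * T) - T * x j * z j := by rw [h3]
          _ = (x i * z i - z i * x i) * T + z i * (x i * T) - T * x j * z j := by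
              simp only [Matrix.sub_mul, Matrix.mul_assoc]
              abel
          _ = T * (x j * z j - z j * x j) + z i * (x i * T) - T * x j * z j := by rw [h2]
          _ = z i * (x i * T) - T * z j * x j := by
              simp only [Matrix.mul_sub, Matrix.mul_assoc]
              abel
          _ = z i * (x i * T - T * x j) := by
              rw [← h3, Matrix.mul_sub, Matrix.mul_assoc]
      rw [hWdef, Matrix.mul_assoc, h4, ← Matrix.mul_assoc, ← hB z hz, hTy' _ (LD_sl j _ hz),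
        Matrix.mul_assoc]
    have h5 : tl F (B j) W = 0 := by
      by_contra hne
      have hcc : ∀ y ∈ sl F (B j), tl F (B j) W * y = y * tl F (B j) W := by
        intro y hy
        rw [tl_apply, smul_smul, sub_mul, mul_sub, hc y hy, smul_mul_assoc, mul_smul_comm,
          one_mul, mul_one]
      obtain ⟨p, hp⟩ := centr hj (tl_sl hj W) hh hne (hcc h hh)
      obtain ⟨q, hq⟩ := centr hj (tl_sl hj W) he hne (hcc e he)
      have h6 : h * e - e * h = 0 := by
        rw [hp, hq, smul_mul_smul_comm, smul_mul_smul_comm, mul_comm p q, sub_self]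
      rw [hhe] at h6
      exact (smul_ne_zero two_ne_zero he0) h6
    rw [tl_apply, smul_smul, sub_eq_zero] at h5
    refine ⟨trace W * (2 : F)⁻¹, ?_⟩
    calc x i * T - T * x j = T * W := by
          rw [hWdef, ← Matrix.mul_assoc, hTT', Matrix.one_mul]
      _ = (trace W * (2 : F)⁻¹) • T := by
          conv_lhs => rw [h5]
          rw [Matrix.mul_smul, Matrix.mul_one]
  -- the generators
  apply hT0
  refine H.hom i j hij T fun ξ => ?_
  obtain ⟨r, hr⟩ := hW (A ξ) (hA ξ)
  have h1 : trace (T' * (A ξ i * T - T * A ξ j)) = trace (T' * (r • T)) := by rw [hr]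
  rw [Matrix.mul_sub, trace_sub, Matrix.trace_mul_comm, Matrix.mul_assoc, hTT', Matrix.mul_one,
    ← Matrix.mul_assoc, hT'T, Matrix.one_mul, H.tr, H.tr,
    Matrix.mul_smul, hT'T, trace_smul, trace_one, hj, smul_eq_mul] at h1
  push_cast at h1
  have h3 : ((p i : F) - p j) * μ ξ = r := by
    have h4 : (2 : F) * (((p i : F) - p j) * μ ξ - r) = 0 := by linear_combination h1
    exact sub_eq_zero.1 ((mul_eq_zero.1 h4).resolve_left two_ne_zero)
  rw [h3, hr]

/-- **The Lie algebra contains all matrices of trace zero.** -/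
theorem single_mem [DecidableEq J] [Fintype J] (H : LData A p μ) (hA : ∀ ξ, A ξ ∈ U)
    (hbr : ∀ x ∈ U, ∀ y ∈ U, x * y - y * x ∈ U) (i : J) {y : Matrix (B i) (B i) F}
    (hy : y ∈ sl F (B i)) : (Pi.single i y : ∀ j, Matrix (B j) (B j) F) ∈ U := by
  obtain ⟨z, hz, hzi, hzt⟩ := conc_gen (LD_brk hbr) (H.dim i) (LD_sl i) (full H hA hbr i)
    (Finset.univ.erase i) (fun t ht => pair H hA hbr (Ne.symm (Finset.ne_of_mem_erase ht))) y hy
  have h1 : (Pi.single i y : ∀ j, Matrix (B j) (B j) F) = z := by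
    funext t
    by_cases ht : t = i
    · subst ht
      rw [Pi.single_eq_same, hzi]
    · rw [Pi.single_eq_of_ne ht, hzt t (Finset.mem_erase.2 ⟨ht, Finset.mem_univ t⟩)]
  rw [h1]
  exact LD_le hbr hz

end fam

end Pool.Agent.H88.GP
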