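import Pool.Agent.H88.FL.Geo13
import Pool.Agent.H88.GP.Lie2
import Pool.Agent.H88.GP.ActDefs

/-!
# Derivations of a Weil cohomology
-/

open CategoryTheory AlgebraicGeometry Finset Function

set_option autoImplicit false
set_option linter.unusedSectionVars false

universe u w

namespace Pool.Agent.H88.GP

open Pool.Agent.H914 Pool.Agent.H914.VarClass Pool.Agent.H914.VarClass.Obj
  Pool.Agent.H914.WeilCohomology Pool.Agent.H281R3.HT Pool.Agent.W552 Pool.Agent.TH132.A
  Pool.Agent.H88.FL

variable {k : Type u} [Field k] {𝒱 : VarClass k} {ops : CycleOps 𝒱}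
  {W : WeilCohomology.{u, 0} ops} {Ξ : Type w} (A : LieAct W Ξ) (ξ : Ξ)

section gen

variable {K : Type*} [Field K] {V : Type*} [AddCommGroup V] [Module K V]

theorem sl2_der {h L f d : Module.End K V} (t : Sl2 h L f) (hdh : h * d = d * h) {μ : K}
    (hdL : d * L - L * d = μ • L) : Sl2 h L (f + (d * f - f * d + μ • f)) := by
  have hLm : L * (μ • f) - (μ • f) * L = μ • h := by
    rw [mul_smul_comm, smul_mul_assoc, ← smul_sub, t.ef]
  have hhm : h * (μ • f) - (μ • f) * h = -(2 * (μ • f)) := by
    rw [mul_smul_comm, smul_mul_assoc, ← smul_sub, t.hf, smul_neg, mul_smul_comm]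
  have hLf : (μ • L) * f - f * (μ • L) = μ • h := by
    rw [mul_smul_comm, smul_mul_assoc, ← smul_sub, t.ef]
  generalize μ • f = m at hLm hhm
  have e1 : L * (d * f - f * d + m) - (d * f - f * d + m) * L = 0 := by
    have h2 : L * (d * f - f * d + m) - (d * f - f * d + m) * L =
        (d * (L * f - f * L) - (L * f - f * L) * d) -
        ((d * L - L * d) * f - f * (d * L - L * d)) + (L * m - m * L) := by
      noncomm_ring
    rw [h2, hdL, t.ef, hLf, hLm, hdh, sub_self, zero_sub, neg_add_cancel]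
  have e2 : h * (d * f - f * d + m) - (d * f - f * d + m) * h =
      -(2 * (d * f - f * d + m)) := by
    have h2 : h * (d * f - f * d + m) - (d * f - f * d + m) * h =
        d * (h * f - f * h) - (h * f - f * h) * d +
        (h * m - m * h) + ((h * d - d * h) * f - f * (h * d - d * h)) := by
      noncomm_ring
    rw [h2, t.hf, hdh, sub_self, zero_mul, mul_zero, sub_zero, add_zero, hhm]
    noncomm_ring
  generalize d * f - f * d + m = g at e1 e2
  refine ⟨?_, t.he, ?_⟩
  · have : L * (f + g) - (f + g) * L = (L * f - f * L) + (L * g - g * L) := by noncomm_ring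
    rw [this, t.ef, e1, add_zero]
  · have : h * (f + g) - (f + g) * h = (h * f - f * h) + (h * g - g * h) := by noncomm_ring
    rw [this, t.hf, e2]
    noncomm_ring

end gen

namespace LieAct

section one

variable {X Y : 𝒱.Obj}

theorem push (f : X ⟶ Y) (x : W.H X) : W.push f (A.d ξ X x) =
    A.d ξ Y (W.push f x) + (((X.dim : W.K) - Y.dim) * A.mu ξ) • W.push f x := by
  apply W.tr_ext
  intro z
  have h1 := A.tr ξ (x * W.map f z)
  rw [A.leib, map_add, A.map, ← W.tr_push, ← W.tr_push, ← W.tr_push] at h1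
  have h2 := A.tr ξ (W.push f x * z)
  rw [A.leib, map_add] at h2
  rw [add_mul, smul_mul_assoc, map_add, map_smul, smul_eq_mul]
  linear_combination h1 - h2

theorem one_zero : A.d ξ X 1 = 0 := by
  have h1 := A.leib ξ (1 : W.H X) 1
  rw [mul_one, mul_one, one_mul] at h1
  have h2 : A.d ξ X 1 + 0 = A.d ξ X 1 + A.d ξ X 1 := by rw [add_zero]; exact h1
  exact (add_left_cancel h2).symm

theorem alg {c : W.H X} (hc : c ∈ algSpan W X) : A.d ξ X c ∈ algSpan W X := by
  rw [algSpan] at hc
  induction hc using Submodule.span_induction with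
  | mem c hc =>
    obtain ⟨j, hj⟩ := Set.mem_iUnion.1 hc
    rw [A.cl ξ j c hj]
    exact Submodule.smul_mem _ _ (Submodule.subset_span (Set.mem_iUnion.2 ⟨j, hj⟩))
  | zero => rw [map_zero]; exact Submodule.zero_mem _
  | add x y _ _ hx hy => rw [map_add]; exact Submodule.add_mem _ hx hy
  | smul q x _ hx => rw [map_smul]; exact Submodule.smul_mem _ _ hx

theorem trans {t : W.H X} (ht : t ∈ transcendental W X) : A.d ξ X t ∈ transcendental W X := by
  apply trans_of_AS
  intro c hc
  have h1 := A.tr ξ (t * c)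
  rw [A.leib, map_add, trans_AS ht hc, mul_zero,
    trans_span ht (A.alg ξ (AS_span hc)), add_zero] at h1
  exact h1

/-- the action on the transcendental part -/
noncomputable def dT (X : 𝒱.Obj) : transcendental W X →ₗ[W.K] transcendental W X :=
  (A.d ξ X).restrict fun _ ht => A.trans ξ ht

theorem dT_apply (t : transcendental W X) : (A.dT ξ X t : W.H X) = A.d ξ X t := rfl

theorem wt_d (x : W.H X) : wt (W.isInternal X) X.dim (A.d ξ X x) =
    A.d ξ X (wt (W.isInternal X) X.dim x) := by
  refine gr_induction (W.isInternal X) (p := fun x => wt (W.isInternal X) X.dim (A.d ξ X x) =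
    A.d ξ X (wt (W.isInternal X) X.dim x)) ?_ ?_ x
  · intro i a ha
    rw [wt, scal_apply _ _ (A.gr ξ i a ha), scal_apply _ _ ha, map_smul]
  · intro a b ha hb
    rw [map_add, map_add, ha, hb, map_add, map_add]

variable {D : X.Cycles} {f : Module.End W.K (W.H X)}

/-- **The lowering operator and the derivations.** -/
theorem low (tf : Low W X D f) (hD : X.IsCyc 1 D) (x : W.H X) :
    f (A.d ξ X x) = A.d ξ X (f x) + A.mu ξ • f x := by
  set d : Module.End W.K (W.H X) := A.d ξ X with hd
  set h : Module.End W.K (W.H X) := wt (W.isInternal X) X.dim with hh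
  set L : Module.End W.K (W.H X) := LinearMap.mulLeft W.K (W.cl X D) with hL
  have hdh : h * d = d * h := by
    apply LinearMap.ext
    intro x
    exact A.wt_d ξ x
  have hdL : d * L - L * d = A.mu ξ • L := by
    apply LinearMap.ext
    intro x
    have h1 := A.cl ξ 1 (W.cl X D) ⟨D, hD, rfl⟩
    have h2 : d (W.cl X D * x) = d (W.cl X D) * x + W.cl X D * d x := A.leib ξ _ _
    rw [LinearMap.sub_apply, Module.End.mul_apply, Module.End.mul_apply, LinearMap.smul_apply,
      LinearMap.mulLeft_apply, LinearMap.mulLeft_apply, h2]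
    have h3 : d (W.cl X D) = A.mu ξ • W.cl X D := by
      have := h1
      rw [Nat.cast_one, one_mul] at this
      exact this
    rw [h3, add_sub_cancel_right, smul_mul_assoc]
  have h1 : Low W X D (f + (d * f - f * d + A.mu ξ • f)) := sl2_der tf hdh hdL
  have h2 : f = f + (d * f - f * d + A.mu ξ • f) := sl2_unique tf h1
  have h3 : d * f - f * d + A.mu ξ • f = 0 := by
    have h4 : f + 0 = f + (d * f - f * d + A.mu ξ • f) := by rw [add_zero]; exact h2
    exact (add_left_cancel h4).symm
  have h4 := congrArg (fun u => u x) h3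
  have h6 : d (f x) - f (d x) + A.mu ξ • f x = 0 := h4
  have h7 : f (d x) = d (f x) + A.mu ξ • f x := by
    rw [sub_add_eq_add_sub, sub_eq_zero] at h6
    exact h6.symm
  exact h7

end one

section prod

variable {Z : Polarized 𝒱}

theorem pi (n : ℕ) (Q : Fin n → Polarized 𝒱) (s : Fin n) (x : W.H (Q s).X) :
    A.d ξ _ (pi' W Z s x) = pi' W Z s (A.d ξ _ x) := A.map ξ _ _

/-- The derivation of a product. -/
theorem lp (n : ℕ) : ∀ (Q : Fin n → Polarized 𝒱) (x : ∀ s, W.H (Q s).X),
    A.d ξ _ (FL.lp W Z x) = ∑ s, FL.lp W Z (update x s (A.d ξ _ (x s))) := by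
  induction n with
  | zero =>
    intro Q x
    rw [Fin.sum_univ_zero]
    exact A.one_zero ξ
  | succ n ih =>
    intro Q x
    have h1 : A.d ξ _ (FL.lp W Z x) = W.map (fst (Q 0).X (VV ops Z n fun t => Q t.succ))
        (A.d ξ _ (x 0)) * W.map (snd (Q 0).X (VV ops Z n fun t => Q t.succ))
          (FL.lp W Z fun t => x t.succ) +
        W.map (fst (Q 0).X (VV ops Z n fun t => Q t.succ)) (x 0) *
          W.map (snd (Q 0).X (VV ops Z n fun t => Q t.succ))
            (A.d ξ _ (FL.lp W Z fun t => x t.succ)) := by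
      have h2 : A.d ξ _ (FL.lp W Z x) = A.d ξ ((Q 0).X.prod (VV ops Z n fun t => Q t.succ))
          (W.map (fst (Q 0).X (VV ops Z n fun t => Q t.succ)) (x 0) *
            W.map (snd (Q 0).X (VV ops Z n fun t => Q t.succ))
              (FL.lp W Z fun t => x t.succ)) := by
        exact congrArg (A.d ξ ((Q 0).X.prod (VV ops Z n fun t => Q t.succ))) (lp_succ x)
      rw [h2, A.leib, A.map, A.map]
    rw [h1, ih, Fin.sum_univ_succ, map_sum, Finset.mul_sum]
    refine congrArg₂ (· + ·) ?_ (Finset.sum_congr rfl fun s _ => ?_)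
    · rw [lp_succ, update_self]
      congr 2
    · rw [lp_succ]
      have e1 : update x s.succ (A.d ξ _ (x s.succ)) 0 = x 0 := update_of_ne (Fin.succ_ne_zero s).symm _ _
      have e2 : (fun t : Fin n => update x s.succ (A.d ξ _ (x s.succ)) t.succ) =
          update (fun t : Fin n => x t.succ) s (A.d ξ _ (x s.succ)) := by
        funext t
        by_cases ht : t = s
        · subst ht
          rw [update_self, update_self]
        · rw [update_of_ne ht, update_of_ne fun h => ht (Fin.succ_injective _ h)]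
      rw [e1, e2]

end prod

section fam

variable {Z : Polarized 𝒱} {ι : Type} {P : ι → Polarized 𝒱} {n : ℕ} {c : Fin n → ι}

/-- the diagonal action -/
noncomputable def dP (P : ι → Polarized 𝒱) : (∀ i, transcendental W (P i).X) →ₗ[W.K]
    (∀ i, transcendental W (P i).X) :=
  LinearMap.pi fun i => A.dT ξ (P i).X ∘ₗ LinearMap.proj i

theorem dP_apply (x : ∀ i, transcendental W (P i).X) (i : ι) :
    A.dP ξ P x i = A.dT ξ (P i).X (x i) := rfl

theorem ev_update (v : Fin n → ∀ i, transcendental W (P i).X) (s : Fin n) :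
    FL.ev c (update v s (A.dP ξ P (v s))) = update (FL.ev c v) s (A.d ξ _ (FL.ev c v s)) := by
  funext t
  by_cases ht : t = s
  · subst ht
    rw [FL.ev, update_self, update_self]
    rfl
  · rw [FL.ev, update_of_ne ht, update_of_ne ht]
    rfl

/-- The multilinear map is equivariant up to scalars. -/
def LEqv (A : LieAct W Ξ) (Φ : MultilinearMap W.K
    (fun _ : Fin n => ∀ i, transcendental W (P i).X) (W.H Z.X)) : Prop :=
  ∀ ξ, ∃ m : W.K, ∀ v, ∑ s, Φ (update v s (A.dP ξ P (v s))) = A.d ξ Z.X (Φ v) + m • Φ v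

theorem FF_eqv {h : W.H (VV ops Z n fun s => P (c s))} {j : ℕ}
    (hh : ∀ ξ, A.d ξ _ h = ((j : W.K) * A.mu ξ) • h) : LEqv A (Z := Z) (FF c h) := by
  intro ξ
  refine ⟨((((VV ops Z n fun s => P (c s)).dim : W.K) - Z.X.dim) - j) * A.mu ξ, fun v => ?_⟩
  have h1 : ∑ s, FF c h (update v s (A.dP ξ P (v s))) =
      W.push (pz ops Z n fun s => P (c s)) (h * A.d ξ _ (FL.lp W Z (FL.ev c v))) := by
    rw [A.lp, Finset.mul_sum, map_sum]
    refine Finset.sum_congr rfl fun s _ => ?_
    rw [FF_apply, A.ev_update]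
  have h2 : h * A.d ξ _ (FL.lp W Z (FL.ev c v)) = A.d ξ _ (h * FL.lp W Z (FL.ev c v)) -
      ((j : W.K) * A.mu ξ) • (h * FL.lp W Z (FL.ev c v)) := by
    rw [A.leib, hh, smul_mul_assoc, add_sub_cancel_left]
  rw [h1, h2, map_sub, map_smul, A.push, FF_apply]
  module

theorem LEqv.low (hcyc : Z.X.IsCyc 1 Z.D) {f : Module.End W.K (W.H Z.X)} (tf : Low W Z.X Z.D f)
    {Φ : MultilinearMap W.K (fun _ : Fin n => ∀ i, transcendental W (P i).X) (W.H Z.X)}
    (hE : LEqv A (Z := Z) Φ) : LEqv A (Z := Z) (f.compMultilinearMap Φ) := by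
  intro ξ
  obtain ⟨m, hm⟩ := hE ξ
  refine ⟨m + A.mu ξ, fun v => ?_⟩
  simp only [LinearMap.compMultilinearMap_apply]
  rw [← map_sum f, hm, map_add, map_smul, A.low ξ tf hcyc]
  module

theorem LEqv.low_pow (hcyc : Z.X.IsCyc 1 Z.D) {f : Module.End W.K (W.H Z.X)}
    (tf : Low W Z.X Z.D f)
    {Φ : MultilinearMap W.K (fun _ : Fin n => ∀ i, transcendental W (P i).X) (W.H Z.X)}
    (hE : LEqv A (Z := Z) Φ) (m : ℕ) : LEqv A (Z := Z) ((f ^ m).compMultilinearMap Φ) := by
  induction m with
  | zero =>
    have : ((f ^ 0).compMultilinearMap Φ) = Φ := by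
      ext v
      rfl
    rw [this]
    exact hE
  | succ m ih =>
    have : ((f ^ (m + 1)).compMultilinearMap Φ) =
        f.compMultilinearMap ((f ^ m).compMultilinearMap Φ) := by
      apply MultilinearMap.ext
      intro v
      rw [LinearMap.compMultilinearMap_apply, pow_succ']
      rfl
    rw [this]
    exact ih.low A hcyc tf

/-- The conditions on the family: the transcendental parts are of dimension two, have only scalar
endomorphisms and no stable lines, and there are no homomorphisms between them up to twists. -/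
structure Rank2 (A : LieAct W Ξ) (P : ι → Polarized 𝒱) : Prop where
  rank : ∀ i, Module.finrank W.K (transcendental W (P i).X) = 2
  scal : ∀ i (f : transcendental W (P i).X →ₗ[W.K] transcendental W (P i).X),
    (∀ ξ t, f (A.dT ξ (P i).X t) = A.dT ξ (P i).X (f t)) → ∃ r : W.K, ∀ t, f t = r • t
  line : ∀ i (t : transcendental W (P i).X),
    (∀ ξ, ∃ r : W.K, A.dT ξ (P i).X t = r • t) → t = 0
  hom : ∀ i j, i ≠ j → ∀ f : transcendental W (P i).X →ₗ[W.K] transcendental W (P j).X,
    (∀ ξ t, A.dT ξ (P j).X (f t) = f (A.dT ξ (P i).X t) +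
      (((((P j).X.dim / 2 : ℕ) : W.K) - ((P i).X.dim / 2 : ℕ)) * A.mu ξ) • f t) → f = 0

end fam

end LieAct

end Pool.Agent.H88.GP
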