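import Mathlib

/-!
# Derivations of the field of complex numbers over a subfield

The argument is the one of the library module `W437.HD.Deriv`.
-/

set_option linter.unusedSectionVars false
set_option autoImplicit false

namespace Pool.Agent.H88.GP

open IntermediateField

/-- The ring of dual numbers over the complex numbers. -/
def DN : Type := TrivSqZeroExt ℂ ℂ

noncomputable instance : CommRing DN := inferInstanceAs (CommRing (TrivSqZeroExt ℂ ℂ))

/-- The projection of the dual numbers. -/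
noncomputable def fstR : DN →+* ℂ :=
  ((TrivSqZeroExt.fstHom ℂ ℂ ℂ).toRingHom : TrivSqZeroExt ℂ ℂ →+* ℂ)

theorem fstR_apply (x : DN) : fstR x = TrivSqZeroExt.fst (x : TrivSqZeroExt ℂ ℂ) := rfl

variable {F : Subfield ℂ}

open scoped IntermediateField.algebraAdjoinAdjoin in
theorem smooth_adjoin {ι : Type*} {v : ι → ℂ} (hv : IsTranscendenceBasis F v) :
    Algebra.FormallySmooth (Algebra.adjoin F (Set.range v)) ℂ := by
  have h1 : Algebra.FormallySmooth (Algebra.adjoin F (Set.range v))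
      (IntermediateField.adjoin F (Set.range v)) :=
    .of_isLocalization (nonZeroDivisors _)
  have h2 : Algebra.IsAlgebraic (IntermediateField.adjoin F (Set.range v)) ℂ :=
    hv.isAlgebraic_field
  have h3 : Algebra.FormallyEtale (IntermediateField.adjoin F (Set.range v)) ℂ :=
    Algebra.FormallyEtale.of_isSeparable _ ℂ
  exact .comp _ (IntermediateField.adjoin F (Set.range v)) _

/-- Derivations of the complex numbers with given values on a transcendence basis. -/
theorem exists_derivation_basis {ι : Type*} {v : ι → ℂ} (hv : IsTranscendenceBasis F v)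
    (f : ι → ℂ) : ∃ δ : Derivation F ℂ ℂ, ∀ i, δ (v i) = f i := by
  have hsm := smooth_adjoin hv
  let A := Algebra.adjoin F (Set.range v)
  -- the map to the dual numbers
  let e : MvPolynomial ι F ≃ₐ[F] A := hv.1.aevalEquiv
  let ψ0 : MvPolynomial ι F →+* TrivSqZeroExt ℂ ℂ := (MvPolynomial.eval₂Hom
    ((TrivSqZeroExt.inlHom ℂ ℂ).comp (algebraMap F ℂ))
      (fun i => TrivSqZeroExt.inl (v i) + TrivSqZeroExt.inr (f i)))
  let ψ : A →+* DN := (ψ0 : MvPolynomial ι F →+* DN).comp (e.symm : A →+* MvPolynomial ι F)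
  let _ : Algebra A DN := ψ.toAlgebra
  have hval : ∀ p, ((e p : A) : ℂ) = MvPolynomial.aeval v p := fun p =>
    hv.1.algebraMap_aevalEquiv p
  have hX : ∀ i, e (MvPolynomial.X i) = ⟨v i, Algebra.subset_adjoin ⟨i, rfl⟩⟩ := by
    intro i
    apply Subtype.ext
    rw [hval, MvPolynomial.aeval_X]
  have hfst : ∀ a : A, fstR (ψ a) = (a : ℂ) := by
    intro a
    obtain ⟨p, rfl⟩ := e.surjective a
    have h0 : ψ (e p) = ψ0 p := by
      change ψ0 (e.symm (e p)) = _
      rw [AlgEquiv.symm_apply_apply]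
    rw [h0, hval]
    change TrivSqZeroExt.fst (ψ0 p) = _
    have h1 : ((TrivSqZeroExt.fstHom ℂ ℂ ℂ).toRingHom : TrivSqZeroExt ℂ ℂ →+* ℂ).comp ψ0 =
        (MvPolynomial.aeval v : MvPolynomial ι F →ₐ[F] ℂ).toRingHom := by
      apply MvPolynomial.ringHom_ext
      · intro r
        simp [ψ0]
      · intro i
        simp [ψ0]
    exact congrArg (fun g => g p) h1
  let g : DN →ₐ[A] ℂ := { fstR with commutes' := fun a => hfst a }
  have hgf : ∀ x : DN, g x = TrivSqZeroExt.fst (x : TrivSqZeroExt ℂ ℂ) := fun x => rfl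
  have hg : Function.Surjective g := by
    intro z
    exact ⟨(TrivSqZeroExt.inl z : TrivSqZeroExt ℂ ℂ), hgf _⟩
  have hker : IsNilpotent (RingHom.ker (g : DN →+* ℂ)) := by
    refine ⟨2, ?_⟩
    rw [pow_two, Submodule.zero_eq_bot, eq_bot_iff]
    rw [Ideal.mul_le]
    intro x hx y hy
    have hx' : TrivSqZeroExt.fst (x : TrivSqZeroExt ℂ ℂ) = 0 := by
      rw [← hgf]
      exact hx
    have hy' : TrivSqZeroExt.fst (y : TrivSqZeroExt ℂ ℂ) = 0 := by
      rw [← hgf]
      exact hy
    change x * y = 0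
    apply TrivSqZeroExt.ext
    · change TrivSqZeroExt.fst (x : TrivSqZeroExt ℂ ℂ) * TrivSqZeroExt.fst (y : TrivSqZeroExt ℂ ℂ) = 0
      rw [hx', zero_mul]
    · change TrivSqZeroExt.fst (x : TrivSqZeroExt ℂ ℂ) • TrivSqZeroExt.snd (y : TrivSqZeroExt ℂ ℂ) +
        MulOpposite.op (TrivSqZeroExt.fst (y : TrivSqZeroExt ℂ ℂ)) •
          TrivSqZeroExt.snd (x : TrivSqZeroExt ℂ ℂ) = 0
      rw [hx', hy']
      simp
  let φ : ℂ →ₐ[A] DN := Algebra.FormallySmooth.liftOfSurjective (AlgHom.id A ℂ) g hg hker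
  have hφ : ∀ z, TrivSqZeroExt.fst (φ z : TrivSqZeroExt ℂ ℂ) = z := by
    intro z
    rw [← hgf]
    exact Algebra.FormallySmooth.liftOfSurjective_apply (AlgHom.id A ℂ) g hg hker z
  have hφv : ∀ i, TrivSqZeroExt.snd (φ (v i) : TrivSqZeroExt ℂ ℂ) = f i := by
    intro i
    have h1 : φ (v i) = ψ ⟨v i, Algebra.subset_adjoin ⟨i, rfl⟩⟩ :=
      φ.commutes ⟨v i, Algebra.subset_adjoin ⟨i, rfl⟩⟩
    rw [h1, ← hX i]
    change TrivSqZeroExt.snd (ψ0 (e.symm (e _))) = _
    rw [AlgEquiv.symm_apply_apply]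
    simp [ψ0]
  have hφc : ∀ c : F, TrivSqZeroExt.snd (φ (c : ℂ) : TrivSqZeroExt ℂ ℂ) = 0 := by
    intro c
    have h1 : φ (c : ℂ) = ψ (algebraMap F A c) := φ.commutes (algebraMap F A c)
    rw [h1]
    change TrivSqZeroExt.snd (ψ0 (e.symm (algebraMap F A c))) = _
    rw [AlgEquiv.commutes]
    simp [ψ0]
  have hmul : ∀ a b, TrivSqZeroExt.snd (φ (a * b) : TrivSqZeroExt ℂ ℂ) =
      a * TrivSqZeroExt.snd (φ b : TrivSqZeroExt ℂ ℂ) +
        b * TrivSqZeroExt.snd (φ a : TrivSqZeroExt ℂ ℂ) := by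
    intro a b
    rw [map_mul]
    change TrivSqZeroExt.fst (φ a : TrivSqZeroExt ℂ ℂ) • TrivSqZeroExt.snd (φ b : TrivSqZeroExt ℂ ℂ) +
      MulOpposite.op (TrivSqZeroExt.fst (φ b : TrivSqZeroExt ℂ ℂ)) •
        TrivSqZeroExt.snd (φ a : TrivSqZeroExt ℂ ℂ) = _
    rw [hφ, hφ, op_smul_eq_smul, smul_eq_mul, smul_eq_mul]
  let δ0 : ℂ →ₗ[F] ℂ :=
    { toFun := fun z => TrivSqZeroExt.snd (φ z : TrivSqZeroExt ℂ ℂ)
      map_add' := fun a b => by
        rw [map_add]
        rfl
      map_smul' := fun c a => by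
        have h1 : c • a = (c : ℂ) * a := rfl
        rw [h1, hmul, hφc, mul_zero, add_zero]
        rfl }
  exact ⟨Derivation.mk' δ0 fun a b => hmul a b, fun i => hφv i⟩

/-- A complex number which is killed by all derivations over an algebraically closed subfield is
in it. -/
theorem mem_of_der [IsAlgClosed F] {x : ℂ} (hx : ∀ δ : Derivation F ℂ ℂ, δ x = 0) : x ∈ F := by
  classical
  by_contra hcon
  have h0 : Transcendental F x := by
    intro h1
    have h2 : IsIntegral F x := h1.isIntegral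
    have h4 := minpoly.aeval F x
    have h3 : (minpoly F x).degree = 1 :=
      IsAlgClosed.degree_eq_one_of_irreducible F (minpoly.irreducible h2)
    rw [Polynomial.eq_X_add_C_of_degree_eq_one h3, (minpoly.monic h2).leadingCoeff,
      Polynomial.C_1, one_mul, map_add, Polynomial.aeval_X, Polynomial.aeval_C,
      add_eq_zero_iff_eq_neg] at h4
    apply hcon
    rw [h4]
    exact neg_mem (((minpoly F x).coeff 0).2)
  have h1 : AlgebraicIndependent F (fun _ : Unit => x) := by
    rw [algebraicIndependent_unique_type_iff]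
    exact h0
  obtain ⟨t, ht1, ht2⟩ := exists_isTranscendenceBasis_superset (R := F)
    (s := Set.range fun _ : Unit => x) h1.coe_range
  obtain ⟨δ, hδ⟩ := exists_derivation_basis ht2 (fun _ => 1)
  have h2 := hδ ⟨x, ht1 ⟨(), rfl⟩⟩
  rw [hx δ] at h2
  exact zero_ne_one h2

end Pool.Agent.H88.GP
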