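import Pool.Agent.H88.GP.Act

/-!
# Spaces of multilinear forms which are stable under derivations
-/

open CategoryTheory AlgebraicGeometry Finset Function

set_option autoImplicit false
set_option linter.unusedSectionVars false

universe u w

namespace Pool.Agent.H88.GP

open Pool.Agent.H914 Pool.Agent.H914.VarClass Pool.Agent.H914.VarClass.Obj
  Pool.Agent.H914.WeilCohomology Pool.Agent.H281R3.HT Pool.Agent.W552 Pool.Agent.TH132.A
  Pool.Agent.H88.FL

section rank2

variable {K : Type} [Field K] [CharZero K] {T : Type} [AddCommGroup T] [Module K T] {m : ℕ}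
  {B : T →ₗ[K] T →ₗ[K] K} {b : Module.Basis (Fin m × Bool) K T}

/-- The trace of an operator which multiplies a symplectic form. -/
theorem trace_of_form (hm : m = 1) (hb : ∀ x y, B (b x) (b y) = sf K x y) {d : T →ₗ[K] T} {c : K}
    (hd : ∀ x y, B (d x) y + B x (d y) = c * B x y) :
    Matrix.trace (LinearMap.toMatrix b b d) = c := by
  subst hm
  have e1 : ∀ x, d x = b.repr (d x) (0, true) • b (0, true) +
      b.repr (d x) (0, false) • b (0, false) := by
    intro x
    conv_lhs => rw [← b.sum_repr (d x)]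
    rw [Fintype.sum_prod_type, Fin.sum_univ_one, Fintype.sum_bool]
  have h1 := hd (b (0, true)) (b (0, false))
  rw [e1 (b (0, true)), e1 (b (0, false))] at h1
  simp only [map_add, map_smul, LinearMap.add_apply, LinearMap.smul_apply, hb, smul_eq_mul,
    sf_true_false, sf_same, if_pos, mul_one, mul_zero, add_zero, zero_add] at h1
  rw [Matrix.trace, Fintype.sum_prod_type, Fin.sum_univ_one, Fintype.sum_bool,
    Matrix.diag_apply, Matrix.diag_apply, LinearMap.toMatrix_apply, LinearMap.toMatrix_apply]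
  simpa using h1

end rank2

variable {k : Type u} [Field k] {𝒱 : VarClass k} {ops : CycleOps 𝒱}
  {W : WeilCohomology.{u, 0} ops} {Ξ : Type w}
  {Z : Polarized 𝒱} {ι : Type} [Fintype ι] [DecidableEq ι] {P : ι → Polarized 𝒱} {n : ℕ}
  {c : Fin n → ι} {g : ι → ℕ}
  {b : ∀ i, Module.Basis (Fin (g i) × Bool) W.K (transcendental W (P i).X)}

/-- the matrices of the derivations -/
noncomputable def mat (A : LieAct W Ξ)
    (b : ∀ i, Module.Basis (Fin (g i) × Bool) W.K (transcendental W (P i).X)) (ξ : Ξ) (i : ι) :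
    Matrix (Fin (g i) × Bool) (Fin (g i) × Bool) W.K :=
  LinearMap.toMatrix (b i) (b i) (A.dT ξ (P i).X)

/-- the operator given by matrices -/
noncomputable def dg
    (b : ∀ i, Module.Basis (Fin (g i) × Bool) W.K (transcendental W (P i).X))
    (x : ∀ i, Matrix (Fin (g i) × Bool) (Fin (g i) × Bool) W.K) :
    (∀ i, transcendental W (P i).X) →ₗ[W.K] (∀ i, transcendental W (P i).X) :=
  LinearMap.pi fun i => Matrix.toLin (b i) (b i) (x i) ∘ₗ LinearMap.proj i

theorem dg_apply (x : ∀ i, Matrix (Fin (g i) × Bool) (Fin (g i) × Bool) W.K)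
    (v : ∀ i, transcendental W (P i).X) (i : ι) :
    dg b x v i = Matrix.toLin (b i) (b i) (x i) (v i) := rfl

theorem dg_add (x y : ∀ i, Matrix (Fin (g i) × Bool) (Fin (g i) × Bool) W.K) :
    dg b (x + y) = dg b x + dg b y := by
  apply LinearMap.ext
  intro v
  funext i
  rw [dg_apply, Pi.add_apply, map_add]
  rfl

theorem dg_smul (r : W.K) (x : ∀ i, Matrix (Fin (g i) × Bool) (Fin (g i) × Bool) W.K) :
    dg b (r • x) = r • dg b x := by
  apply LinearMap.ext
  intro v
  funext i
  rw [dg_apply, Pi.smul_apply, map_smul]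
  rfl

theorem dg_zero : dg b (0 : ∀ i, Matrix (Fin (g i) × Bool) (Fin (g i) × Bool) W.K) = 0 := by
  have := dg_smul (b := b) (0 : W.K) 0
  rwa [zero_smul, zero_smul] at this

theorem dg_brk (x y : ∀ i, Matrix (Fin (g i) × Bool) (Fin (g i) × Bool) W.K) :
    dg b (x * y - y * x) = dg b x ∘ₗ dg b y - dg b y ∘ₗ dg b x := by
  apply LinearMap.ext
  intro v
  funext i
  rw [dg_apply, Pi.sub_apply, Pi.mul_apply, Pi.mul_apply, map_sub,
    Matrix.toLin_mul (b i) (b i) (b i), Matrix.toLin_mul (b i) (b i) (b i)]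
  rfl

theorem dg_mat (A : LieAct W Ξ) (ξ : Ξ) : dg b (mat A b ξ) = A.dP ξ P := by
  apply LinearMap.ext
  intro v
  funext i
  rw [dg_apply, mat, Matrix.toLin_toMatrix]
  rfl

theorem dg_single (i : ι) (y : Matrix (Fin (g i) × Bool) (Fin (g i) × Bool) W.K) :
    dg b (Pi.single i y) = emb i (Matrix.toLin (b i) (b i) y) := by
  apply LinearMap.ext
  intro v
  funext j
  rw [dg_apply, emb_apply]
  by_cases hj : j = i
  · subst hj
    rw [Pi.single_eq_same, Pi.single_eq_same]
  · rw [Pi.single_eq_of_ne hj, Pi.single_eq_of_ne hj, map_zero, LinearMap.zero_apply]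

/-- the matrices whose derivations preserve a space of forms -/
noncomputable def UU
    (b : ∀ i, Module.Basis (Fin (g i) × Bool) W.K (transcendental W (P i).X))
    (R : Submodule W.K (MultilinearMap W.K (fun _ : Fin n => ∀ i, transcendental W (P i).X) W.K)) :
    Submodule W.K (∀ i, Matrix (Fin (g i) × Bool) (Fin (g i) × Bool) W.K) where
  carrier := {x | ∀ φ ∈ R, der (dg b x) φ ∈ R}
  zero_mem' := by
    intro φ _
    rw [dg_zero, der_zero]
    exact Submodule.zero_mem _
  add_mem' := by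
    intro x y hx hy φ hφ
    rw [dg_add, der_add]
    exact Submodule.add_mem _ (hx φ hφ) (hy φ hφ)
  smul_mem' := by
    intro c x hx φ hφ
    rw [dg_smul, der_smul]
    exact Submodule.smul_mem _ _ (hx φ hφ)

theorem mem_UU {R : Submodule W.K
    (MultilinearMap W.K (fun _ : Fin n => ∀ i, transcendental W (P i).X) W.K)}
    {x : ∀ i, Matrix (Fin (g i) × Bool) (Fin (g i) × Bool) W.K} :
    x ∈ UU b R ↔ ∀ φ ∈ R, der (dg b x) φ ∈ R := Iff.rfl

/-- **The matrices satisfy the conditions.** -/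
theorem lData (S : Setting W Z P) {A : LieAct W Ξ} (H : A.Rank2 P)
    (hb : ∀ i x y, bf W P i (b i x) (b i y) = sf W.K x y) :
    LData (mat A b) (fun i => (P i).X.dim / 2) A.mu := by
  have hg : ∀ i, g i = 1 := by
    intro i
    have h1 := Module.finrank_eq_card_basis (b i)
    rw [H.rank i, Fintype.card_prod, Fintype.card_fin, Fintype.card_bool] at h1
    omega
  refine ⟨fun i => ?_, fun ξ i => ?_, fun i Y hY => ?_, fun i v hv => ?_, fun i j hij Y hY => ?_⟩
  · rw [Fintype.card_prod, Fintype.card_fin, Fintype.card_bool, hg i]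
  · have h1 := trace_of_form (hg i) (hb i) (d := A.dT ξ (P i).X)
      (c := ((P i).X.dim : W.K) * A.mu ξ) (fun x y => by
        rw [FL.bf_apply, FL.bf_apply, FL.bf_apply, A.dT_apply, A.dT_apply, ← map_add, ← A.leib,
          A.tr])
    rw [mat, h1]
    congr 1
    obtain ⟨q, hq⟩ := S.odd i
    rw [hq, show (2 * q + 1) / 2 = q by omega]
    push_cast
    rfl
  · obtain ⟨r, hr⟩ := H.scal i (Matrix.toLin (b i) (b i) Y) fun ξ t => by
      have h1 := congrArg (Matrix.toLin (b i) (b i)) (hY ξ)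
      rw [mat, Matrix.toLin_mul (b i) (b i) (b i), Matrix.toLin_mul (b i) (b i) (b i),
        Matrix.toLin_toMatrix] at h1
      exact LinearMap.congr_fun h1 t
    refine ⟨r, ?_⟩
    have h2 : Matrix.toLin (b i) (b i) Y = Matrix.toLin (b i) (b i) (r • 1) := by
      rw [map_smul, Matrix.toLin_one]
      exact LinearMap.ext hr
    exact (Matrix.toLin (b i) (b i)).injective h2
  · by_contra hcon
    push Not at hcon
    set t : transcendental W (P i).X := (b i).equivFun.symm v with ht
    have hrep : ∀ x, (b i).repr t x = v x := by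
      intro x
      have := congrFun ((b i).equivFun.apply_symm_apply v) x
      rwa [Module.Basis.equivFun_apply] at this
    have h1 := H.line i t fun ξ => by
      obtain ⟨r, hr⟩ := hcon ξ
      refine ⟨r, ?_⟩
      apply (b i).repr.injective
      ext x
      have h2 : (b i).repr (A.dT ξ (P i).X t) x = (mat A b ξ i).mulVec ((b i).repr t) x := by
        rw [mat, LinearMap.toMatrix_mulVec_repr]
      have h3 : (⇑((b i).repr t) : Fin (g i) × Bool → W.K) = v := funext hrep
      rw [h2, h3, hr, map_smul, Finsupp.smul_apply, hrep, Pi.smul_apply]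
    apply hv
    funext x
    rw [← hrep x, h1, map_zero]
    rfl
  · have h1 := H.hom j i (Ne.symm hij) (Matrix.toLin (b j) (b i) Y) fun ξ t => by
      have h2 := congrArg (Matrix.toLin (b j) (b i)) (hY ξ)
      rw [map_sub, map_smul, mat, mat, Matrix.toLin_mul (b j) (b i) (b i),
        Matrix.toLin_mul (b j) (b j) (b i), Matrix.toLin_toMatrix, Matrix.toLin_toMatrix,
        sub_eq_iff_eq_add] at h2
      have h3 := LinearMap.congr_fun h2 t
      rw [LinearMap.add_apply, LinearMap.smul_apply, LinearMap.comp_apply, LinearMap.comp_apply,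
        add_comm] at h3
      exact h3
    have h2 : Matrix.toLin (b j) (b i) Y = Matrix.toLin (b j) (b i) 0 := by
      rw [h1, map_zero]
    exact (Matrix.toLin (b j) (b i)).injective h2

/-- **Small stable spaces of traceless forms vanish.** -/
theorem forms_zero (S : Setting W Z P) {A : LieAct W Ξ} (H : A.Rank2 P)
    (hb : ∀ i x y, bf W P i (b i x) (b i y) = sf W.K x y)
    {R : Submodule W.K (MultilinearMap W.K (fun _ : Fin n => ∀ i, transcendental W (P i).X) W.K)}
    [Module.Finite W.K R] (hfam : ∀ ξ, ∀ φ ∈ R, der (A.dP ξ P) φ ∈ R)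
    (hTL : ∀ φ ∈ R, TL b c φ)
    (hsm : Module.finrank W.K R < ∏ i, ((univ.filter fun s => c s = i).card + 1)) :
    ∀ φ ∈ R, φ = 0 := by
  have hL : ∀ i u v, ∀ φ ∈ R, der (emb i (ss (bf W P i) u v)) φ ∈ R := by
    intro i u v
    have h1 : LinearMap.toMatrix (b i) (b i) (ss (bf W P i) u v) ∈
        sl W.K (Fin (g i) × Bool) := by
      rw [mem_sl]
      have hg : g i = 1 := by
        have h1 := Module.finrank_eq_card_basis (b i)
        rw [H.rank i, Fintype.card_prod, Fintype.card_fin, Fintype.card_bool] at h1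
        omega
      refine trace_of_form hg (hb i) fun x y => ?_
      rw [zero_mul, ss_apply, ss_apply, map_add, map_smul, map_smul, map_add, map_smul, map_smul,
        LinearMap.add_apply, LinearMap.smul_apply, LinearMap.smul_apply, smul_eq_mul,
        smul_eq_mul, smul_eq_mul, smul_eq_mul, S.bf_skew i x u, S.bf_skew i x v]
      ring
    have h2 := single_mem (U := UU b R) (lData S H hb) (fun ξ => by
      rw [mem_UU, dg_mat]
      exact hfam ξ) (fun x hx y hy φ hφ => by
        rw [dg_brk, der_bracket]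
        exact Submodule.sub_mem _ (hy _ (hx φ hφ)) (hx _ (hy φ hφ))) i h1
    rw [mem_UU, dg_single, Matrix.toLin_toMatrix] at h2
    exact h2
  intro φ hφ
  refine Module.Basis.ext_multilinear (fun _ => Pi.basis b) fun r => ?_
  have h3 := coord_zero (B := bf W P) hb (c := c) hL (fun φ hφ => (hTL φ hφ).supp)
    (fun φ hφ => (hTL φ hφ).tr) hsm hφ r
  rw [_root_.zero_apply, ← h3]
  congr 1
  funext s
  rw [Pi.basis_apply]
  rfl

/-- **An equivariant map with values in a small stable subspace vanishes.** -/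
theorem map_zero_of_small (S : Setting W Z P) {A : LieAct W Ξ} (H : A.Rank2 P)
    (hb : ∀ i x y, bf W P i (b i x) (b i y) = sf W.K x y)
    {Φ : MultilinearMap W.K (fun _ : Fin n => ∀ i, transcendental W (P i).X) (W.H Z.X)}
    (hE : LieAct.LEqv A (Z := Z) Φ) (hT : TL b c Φ) {U : Submodule W.K (W.H Z.X)}
    (hΦ : ∀ v, Φ v ∈ U)
    (hsm : Module.finrank W.K U < ∏ i, ((univ.filter fun s => c s = i).card + 1)) :
    Φ = 0 := by
  obtain ⟨p, hp⟩ := LinearMap.exists_leftInverse_of_injective U.subtype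
    (Submodule.ker_subtype U)
  have hpU : ∀ x ∈ U, ((p x : U) : W.H Z.X) = x := by
    intro x hx
    have := congrArg (fun q => q (⟨x, hx⟩ : U)) hp
    exact congrArg Subtype.val this
  let Λ : Module.Dual W.K U →ₗ[W.K]
      MultilinearMap W.K (fun _ : Fin n => ∀ i, transcendental W (P i).X) W.K :=
    { toFun := fun l => (l ∘ₗ p).compMultilinearMap Φ
      map_add' := fun _ _ => rfl
      map_smul' := fun _ _ => rfl }
  have hΛ : ∀ l v, Λ l v = l (p (Φ v)) := fun _ _ => rfl
  have hfam : ∀ ξ, ∀ φ ∈ LinearMap.range Λ, der (A.dP ξ P) φ ∈ LinearMap.range Λ := by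
    rintro ξ _ ⟨l, rfl⟩
    obtain ⟨m, hm⟩ := hE ξ
    refine ⟨l ∘ₗ p ∘ₗ (A.d ξ Z.X + m • LinearMap.id) ∘ₗ U.subtype, ?_⟩
    apply MultilinearMap.ext
    intro v
    rw [der_apply, Finset.sum_congr rfl fun s _ => hΛ l _, ← map_sum l, ← map_sum p, hm, hΛ]
    change l (p (A.d ξ Z.X ((p (Φ v) : U) : W.H Z.X) + m • ((p (Φ v) : U) : W.H Z.X))) = _
    rw [hpU _ (hΦ v)]
  have h2 := forms_zero S H hb (c := c) hfam (by
    rintro _ ⟨l, rfl⟩
    exact hT.comp (l ∘ₗ p)) (by
    have h1 := LinearMap.finrank_range_le Λ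
    rw [Subspace.dual_finrank_eq] at h1
    exact lt_of_le_of_lt h1 hsm)
  apply MultilinearMap.ext
  intro v
  have h3 : p (Φ v) = 0 := by
    rw [← Module.forall_dual_apply_eq_zero_iff W.K]
    intro l
    have h4 := h2 _ ⟨l, rfl⟩
    exact congrArg (fun φ => φ v) h4
  rw [← hpU _ (hΦ v), h3]
  rfl

/-- **The values of a traceless equivariant map are transcendental.** -/
theorem map_trans (S : Setting W Z P) {A : LieAct W Ξ} (H : A.Rank2 P)
    (hb : ∀ i x y, bf W P i (b i x) (b i y) = sf W.K x y)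
    {Φ : MultilinearMap W.K (fun _ : Fin n => ∀ i, transcendental W (P i).X) (W.H Z.X)}
    (hE : LieAct.LEqv A (Z := Z) Φ) (hT : TL b c Φ) (hn : 0 < n)
    (v : Fin n → ∀ i, transcendental W (P i).X) : Φ v ∈ transcendental W Z.X := by
  rw [mem_trans]
  intro j z hz
  rw [bil_apply]
  set Ψ : MultilinearMap W.K (fun _ : Fin n => ∀ i, transcendental W (P i).X) W.K :=
    (W.tr Z.X ∘ₗ LinearMap.mulRight W.K z).compMultilinearMap Φ with hΨ
  have hΨa : ∀ v, Ψ v = W.tr Z.X (Φ v * z) := fun _ => rfl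
  have hfam : ∀ ξ, ∀ φ ∈ Submodule.span W.K {Ψ}, der (A.dP ξ P) φ ∈
      Submodule.span W.K {Ψ} := by
    intro ξ φ hφ
    obtain ⟨a, rfl⟩ := Submodule.mem_span_singleton.1 hφ
    obtain ⟨m, hm⟩ := hE ξ
    refine Submodule.mem_span_singleton.2
      ⟨a * ((Z.X.dim : W.K) * A.mu ξ - (j : W.K) * A.mu ξ + m), ?_⟩
    apply MultilinearMap.ext
    intro v
    have h1 : ∑ s, Ψ (update v s (A.dP ξ P (v s))) =
        ((Z.X.dim : W.K) * A.mu ξ - (j : W.K) * A.mu ξ + m) * Ψ v := by
      rw [Finset.sum_congr rfl fun s _ => hΨa _, ← map_sum, ← Finset.sum_mul, hm, add_mul,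
        map_add, smul_mul_assoc, map_smul, hΨa]
      have h2 := A.tr ξ (Φ v * z)
      rw [A.leib, map_add, A.cl ξ j z hz, mul_smul_comm, map_smul, smul_eq_mul] at h2
      rw [smul_eq_mul]
      linear_combination h2
    rw [der_apply, _root_.smul_apply]
    simp only [_root_.smul_apply]
    rw [← Finset.smul_sum, h1, smul_eq_mul, smul_eq_mul]
    ring
  have h2 := forms_zero S H hb (c := c) hfam (by
    intro φ hφ
    obtain ⟨a, rfl⟩ := Submodule.mem_span_singleton.1 hφ
    exact hT.comp (a • (W.tr Z.X ∘ₗ LinearMap.mulRight W.K z))) (by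
    refine lt_of_le_of_lt (finrank_span_le_card _) ?_
    rw [Set.toFinset_singleton, Finset.card_singleton]
    have h3 : (2 : ℕ) ≤ (univ.filter fun s => c s = c ⟨0, hn⟩).card + 1 := by
      have : 0 < (univ.filter fun s => c s = c ⟨0, hn⟩).card :=
        Finset.card_pos.2 ⟨⟨0, hn⟩, by simp⟩
      omega
    have h4 := Finset.single_le_prod' (f := fun i => (univ.filter fun s => c s = i).card + 1)
      (fun i _ => Nat.le_add_left 1 _) (Finset.mem_univ (c ⟨0, hn⟩))
    have h5 : (univ.filter fun s => c s = c ⟨0, hn⟩).card + 1 ≤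
      ∏ i, ((univ.filter fun s => c s = i).card + 1) := h4
    omega) Ψ (Submodule.mem_span_singleton_self Ψ)
  exact congrArg (fun φ => φ v) h2

/-- **Equivariant maps to the lower half of the cohomology.** -/
theorem eqv_zero_low (S : Setting W Z P) {A : LieAct W Ξ} (H : A.Rank2 P)
    (hb : ∀ i x y, bf W P i (b i x) (b i y) = sf W.K x y) (hn : 0 < n)
    {f : Module.End W.K (W.H Z.X)} (tf : Low W Z.X Z.D f) (e : ℕ) : e ≤ Z.X.dim →
    ∀ {Φ : MultilinearMap W.K (fun _ : Fin n => ∀ i, transcendental W (P i).X) (W.H Z.X)},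
    LieAct.LEqv A (Z := Z) Φ → TL b c Φ → (∀ v, Φ v ∈ W.gr Z.X e) →
    (∀ e' ≤ e, Even (e + e') → primRank W Z.X Z.D e' <
      ∏ i, ((univ.filter fun s => c s = i).card + 1)) → Φ = 0 := by
  induction e using Nat.strong_induction_on with
  | _ e ih =>
    intro he Φ hE hT hgr hsm
    have h1 : ∀ v, f (Φ v) = 0 := by
      by_cases h2 : e < 2
      · exact fun v => (low_gr tf (hgr v)).2 h2
      · have h3 := ih (e - 2) (by omega) (by omega) (hE.low A S.cycZ tf) (hT.comp f)
          (fun v => (low_gr tf (hgr v)).1 (e - 2) (by omega)) (fun e' he' h4 =>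
            hsm e' (by omega) (by
              have h5 : e + e' = (e - 2 + e') + 2 := by omega
              rw [h5]
              exact h4.add (by decide)))
        exact fun v => congrArg (fun φ => φ v) h3
    refine map_zero_of_small S H hb hE hT (U := primTrans W Z.X Z.D e) (fun v => ?_)
      (hsm e le_rfl (by exact ⟨e, rfl⟩))
    refine ⟨⟨hgr v, map_trans S H hb hE hT hn v⟩, LinearMap.mem_ker.2 ?_⟩
    have h2 := low_prim tf he (hgr v) (h1 v)
    rwa [LinearMap.pow_mulLeft] at h2

/-- **Equivariant maps.** -/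
theorem eqv_zero (S : Setting W Z P) {A : LieAct W Ξ} (H : A.Rank2 P)
    (hb : ∀ i x y, bf W P i (b i x) (b i y) = sf W.K x y) (hn : 0 < n)
    {e : ℕ} {Φ : MultilinearMap W.K (fun _ : Fin n => ∀ i, transcendental W (P i).X) (W.H Z.X)}
    (hE : LieAct.LEqv A (Z := Z) Φ) (hT : TL b c Φ) (hgr : ∀ v, Φ v ∈ W.gr Z.X e)
    (hsm : ∀ e' ≤ e, e' + e ≤ 2 * Z.X.dim → Even (e + e') → primRank W Z.X Z.D e' <
      ∏ i, ((univ.filter fun s => c s = i).card + 1)) : Φ = 0 := by
  obtain ⟨f, tf⟩ := TH132.A.exists_low S.cycZ S.hardZ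
  by_cases h1 : e ≤ Z.X.dim
  · exact eqv_zero_low S H hb hn tf e h1 hE hT hgr fun e' he' => hsm e' he' (by omega)
  by_cases h2 : e ≤ 2 * Z.X.dim
  · have h3 := eqv_zero_low S H hb hn tf (2 * Z.X.dim - e) (by omega)
      (hE.low_pow A S.cycZ tf (e - Z.X.dim)) (hT.comp (f ^ (e - Z.X.dim)))
      (fun v => low_pow_gr tf (e - Z.X.dim) (by omega) (hgr v)) (fun e' he' h4 =>
        hsm e' (by omega) (by omega) (by
          obtain ⟨q, hq⟩ := h4
          exact ⟨q + (e - Z.X.dim), by omega⟩))
    apply MultilinearMap.ext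
    intro v
    refine low_inj tf (m := e - Z.X.dim) ?_ (congrArg (fun φ => φ v) h3)
    rw [show Z.X.dim + (e - Z.X.dim) = e by omega]
    exact hgr v
  · apply MultilinearMap.ext
    intro v
    have h3 := hgr v
    rw [W.gr_eq_bot Z.X e (by omega)] at h3
    exact (Submodule.mem_bot _).1 h3

/-- **Traceless classes with few forms.** -/
theorem FF_vanish (S : Setting W Z P) {A : LieAct W Ξ} (H : A.Rank2 P)
    (hb : ∀ i x y, bf W P i (b i x) (b i y) = sf W.K x y) (hn : 0 < n)
    {j : ℕ} {h : W.H (VV ops Z n fun s => P (c s))}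
    (hh : h ∈ W.gr _ (2 * j)) (hfix : ∀ ξ, A.d ξ _ h = ((j : W.K) * A.mu ξ) • h)
    (htr : ∀ s t, s ≠ t → c s = c t → mv W.K (KK s t) (cd b c h) = 0)
    (hsm : ∀ e, 2 * j = e + ∑ s, (P (c s)).X.dim → ∀ e' ≤ e, e' + e ≤ 2 * Z.X.dim →
      Even (e + e') → primRank W Z.X Z.D e' <
        ∏ i, ((univ.filter fun s => c s = i).card + 1))
    (v : Fin n → ∀ i, transcendental W (P i).X) : FF c h v = 0 := by
  by_cases hj : ∑ s, (P (c s)).X.dim ≤ 2 * j
  · obtain ⟨e, he⟩ := Nat.exists_eq_add_of_le' hj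
    have hmem : ∀ v, FF c h v ∈ W.gr Z.X e := by
      intro v
      have h1 := S.FF_mem c hh v
      have h2 : ((2 * j : ℕ) : ℤ) - (∑ s, (P (c s)).X.dim : ℕ) = (e : ℤ) := by
        rw [he]
        push_cast
        ring
      rwa [h2, grZ_natCast] at h1
    have h1 := eqv_zero S H hb hn (A.FF_eqv hfix) (TL_FF htr) hmem (hsm e he)
    rw [h1]
    rfl
  · have h1 := S.FF_mem c hh v
    rw [grZ_of_neg (by omega)] at h1
    exact (Submodule.mem_bot _).1 h1

end Pool.Agent.H88.GP
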