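import Pool.Agent.H88.GP.Forms2
import Pool.Agent.H88.L.H914R2.KDefs

/-!
# Classes with a property which is stable under the usual operations: the induction step
-/

open CategoryTheory AlgebraicGeometry Finset Function

set_option autoImplicit false
set_option linter.unusedSectionVars false

universe u w

namespace Pool.Agent.H88.GP

open Pool.Agent.H914 Pool.Agent.H914.VarClass Pool.Agent.H914.VarClass.Obj
  Pool.Agent.H914.WeilCohomology Pool.Agent.H281R3.HT Pool.Agent.W552 Pool.Agent.TH132.A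
  Pool.Agent.H88.FL

variable {k : Type u} [Field k] {𝒱 : VarClass k} {ops : CycleOps 𝒱}
  {W : WeilCohomology.{u, 0} ops} {X Y : 𝒱.Obj}

/-- A property of homogeneous classes of even degree which is stable under linear combinations,
products, pull-backs and push-forwards and holds for the classes of algebraic cycles. -/
structure ClassPred (W : WeilCohomology.{u, 0} ops) where
  /-- the property of the classes of degree `2 j` on `X` -/
  P : ∀ X : 𝒱.Obj, ℕ → W.H X → Prop
  gr : ∀ {X : 𝒱.Obj} {j : ℕ} {c : W.H X}, P X j c → c ∈ W.gr X (2 * j)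
  zero : ∀ {X : 𝒱.Obj} {j : ℕ}, P X j 0
  add : ∀ {X : 𝒱.Obj} {j : ℕ} {a b : W.H X}, P X j a → P X j b → P X j (a + b)
  smul : ∀ {X : 𝒱.Obj} {j : ℕ} (r : W.K) {a : W.H X}, P X j a → P X j (r • a)
  cl : ∀ {X : 𝒱.Obj} {j : ℕ} {z : X.Cycles}, X.IsCyc j z → P X j (W.cl X z)
  mul : ∀ {X : 𝒱.Obj} {i j : ℕ} {a b : W.H X}, P X i a → P X j b → P X (i + j) (a * b)
  map : ∀ {X Y : 𝒱.Obj} (f : X ⟶ Y) {j : ℕ} {a : W.H Y}, P Y j a → P X j (W.map f a)
  push : ∀ {X Y : 𝒱.Obj} (f : X ⟶ Y) {j l : ℕ}, l + X.dim = j + Y.dim → ∀ {a : W.H X},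
    P X j a → P Y l (W.push f a)

theorem span_mul {x y : W.H X} (hx : x ∈ algSpan W X) (hy : y ∈ algSpan W X) :
    x * y ∈ algSpan W X := by
  rw [algSpan] at hx
  induction hx using Submodule.span_induction with
  | mem x hx =>
    obtain ⟨i, hi⟩ := Set.mem_iUnion.1 hx
    rw [algSpan] at hy
    induction hy using Submodule.span_induction with
    | mem y hy =>
      obtain ⟨j, hj⟩ := Set.mem_iUnion.1 hy
      exact AS_span ((AS.of hi).mul (AS.of hj))
    | zero => rw [mul_zero]; exact Submodule.zero_mem _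
    | add a b _ _ ha hb => rw [mul_add]; exact Submodule.add_mem _ ha hb
    | smul r a _ ha => rw [mul_smul_comm]; exact Submodule.smul_mem _ _ ha
  | zero => rw [zero_mul]; exact Submodule.zero_mem _
  | add a b _ _ ha hb => rw [add_mul]; exact Submodule.add_mem _ ha hb
  | smul r a _ ha => rw [smul_mul_assoc]; exact Submodule.smul_mem _ _ ha

theorem span_map (f : X ⟶ Y) {x : W.H Y} (hx : x ∈ algSpan W Y) : W.map f x ∈ algSpan W X := by
  rw [algSpan] at hx
  induction hx using Submodule.span_induction with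
  | mem x hx =>
    obtain ⟨i, hi⟩ := Set.mem_iUnion.1 hx
    exact AS_span ((AS.of hi).map f)
  | zero => rw [map_zero]; exact Submodule.zero_mem _
  | add a b _ _ ha hb => rw [map_add]; exact Submodule.add_mem _ ha hb
  | smul r a _ ha => rw [map_smul]; exact Submodule.smul_mem _ _ ha

namespace ClassPred

variable (Q : ClassPred W)

/-- The space of the classes. -/
noncomputable def sp (X : 𝒱.Obj) : Submodule W.K (W.H X) :=
  Submodule.span W.K {c | ∃ j, Q.P X j c}

variable {Q}

theorem sp_of {j : ℕ} {c : W.H X} (hc : Q.P X j c) : c ∈ Q.sp X := Submodule.subset_span ⟨j, hc⟩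

theorem sp_proj {x : W.H X} (hx : x ∈ Q.sp X) (j : ℕ) :
    Q.P X j (H914.proj (W.isInternal X) (2 * j) x) := by
  rw [sp] at hx
  induction hx using Submodule.span_induction with
  | mem x hx =>
    obtain ⟨i, hi⟩ := hx
    by_cases h : i = j
    · subst h
      rw [proj_same _ (Q.gr hi)]
      exact hi
    · rw [proj_ne _ (Q.gr hi) (by omega)]
      exact Q.zero
  | zero => rw [map_zero]; exact Q.zero
  | add x y _ _ hx hy => rw [map_add]; exact Q.add hx hy
  | smul r x _ hx => rw [map_smul]; exact Q.smul r hx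

theorem sp_hom {x : W.H X} (hx : x ∈ Q.sp X) {j : ℕ} (hj : x ∈ W.gr X (2 * j)) : Q.P X j x := by
  have h1 := sp_proj hx j
  rwa [proj_same _ hj] at h1

theorem alg_le : algSpan W X ≤ Q.sp X := by
  rw [algSpan, Submodule.span_le]
  intro c hc
  obtain ⟨j, z, hz, rfl⟩ := Set.mem_iUnion.1 hc
  exact sp_of (Q.cl hz)

theorem sp_mul {x y : W.H X} (hx : x ∈ Q.sp X) (hy : y ∈ Q.sp X) : x * y ∈ Q.sp X := by
  rw [sp] at hx
  induction hx using Submodule.span_induction with
  | mem x hx =>
    obtain ⟨i, hi⟩ := hx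
    rw [sp] at hy
    induction hy using Submodule.span_induction with
    | mem y hy =>
      obtain ⟨j, hj⟩ := hy
      exact sp_of (Q.mul hi hj)
    | zero => rw [mul_zero]; exact Submodule.zero_mem _
    | add a b _ _ ha hb => rw [mul_add]; exact Submodule.add_mem _ ha hb
    | smul r a _ ha => rw [mul_smul_comm]; exact Submodule.smul_mem _ _ ha
  | zero => rw [zero_mul]; exact Submodule.zero_mem _
  | add a b _ _ ha hb => rw [add_mul]; exact Submodule.add_mem _ ha hb
  | smul r a _ ha => rw [smul_mul_assoc]; exact Submodule.smul_mem _ _ ha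

theorem sp_map (f : X ⟶ Y) {x : W.H Y} (hx : x ∈ Q.sp Y) : W.map f x ∈ Q.sp X := by
  rw [sp] at hx
  induction hx using Submodule.span_induction with
  | mem x hx =>
    obtain ⟨i, hi⟩ := hx
    exact sp_of (Q.map f hi)
  | zero => rw [map_zero]; exact Submodule.zero_mem _
  | add a b _ _ ha hb => rw [map_add]; exact Submodule.add_mem _ ha hb
  | smul r a _ ha => rw [map_smul]; exact Submodule.smul_mem _ _ ha

theorem sp_push (f : X ⟶ Y) {x : W.H X} (hx : x ∈ Q.sp X) : W.push f x ∈ Q.sp Y := by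
  rw [sp] at hx
  induction hx using Submodule.span_induction with
  | mem x hx =>
    obtain ⟨j, hj⟩ := hx
    by_cases h : X.dim ≤ j + Y.dim
    · exact sp_of (Q.push f (l := j + Y.dim - X.dim) (by omega) hj)
    · have h1 := W.push_mem f (Q.gr hj)
      rw [grZ_of_neg (by push_cast; omega)] at h1
      rw [(Submodule.mem_bot _).1 h1]
      exact Submodule.zero_mem _
  | zero => rw [map_zero]; exact Submodule.zero_mem _
  | add a b _ _ ha hb => rw [map_add]; exact Submodule.add_mem _ ha hb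
  | smul r a _ ha => rw [map_smul]; exact Submodule.smul_mem _ _ ha

/-- The two forms of the conjecture. -/
theorem conj_iff : (∀ j c, Q.P X j c → c ∈ spanCycles W X (j : ℤ)) ↔ Q.sp X ≤ algSpan W X := by
  constructor
  · intro h
    rw [sp, Submodule.span_le]
    rintro c ⟨j, hj⟩
    refine (Submodule.span_mono ?_) (h j c hj)
    rintro _ ⟨p, _, z, hz, rfl⟩
    exact Set.mem_iUnion.2 ⟨p, z, hz, rfl⟩
  · intro h j c hc
    have h1 := h (sp_of hc)
    have h2 : ∀ x ∈ algSpan W X, H914.proj (W.isInternal X) (2 * j) x ∈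
        spanCycles W X (j : ℤ) := by
      intro x hx
      rw [algSpan] at hx
      induction hx using Submodule.span_induction with
      | mem x hx =>
        obtain ⟨i, z, hz, rfl⟩ := Set.mem_iUnion.1 hx
        by_cases hi : i = j
        · subst hi
          rw [proj_same _ (W.cl_mem hz)]
          exact Submodule.subset_span ⟨i, rfl, z, hz, rfl⟩
        · rw [proj_ne _ (W.cl_mem hz) (by omega)]
          exact Submodule.zero_mem _
      | zero => rw [map_zero]; exact Submodule.zero_mem _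
      | add a b _ _ ha hb => rw [map_add]; exact Submodule.add_mem _ ha hb
      | smul r a _ ha => rw [map_smul]; exact Submodule.smul_mem _ _ ha
    have h3 := h2 c h1
    rwa [proj_same _ (Q.gr hc)] at h3

end ClassPred

section step

variable {Ξ : Type w} {Z : Polarized 𝒱} {ι : Type} {P : ι → Polarized 𝒱} {Q : ClassPred W}

/-- The conjecture for the product. -/
def QA (Q : ClassPred W) (Z : Polarized 𝒱) {ι : Type} (P : ι → Polarized 𝒱) {n : ℕ}
    (c : Fin n → ι) : Prop :=
  Q.sp (VV ops Z n fun s => P (c s)) ≤ algSpan W (VV ops Z n fun s => P (c s))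

theorem op_alg {n : ℕ} {c : Fin (n + 1) → ι} (s : Fin (n + 1))
    (D : Slot W Z (fun s => P (c s)) s) (ih : QA Q Z P fun t => c (s.succAbove t))
    {y : W.H (VV ops Z (n + 1) fun s => P (c s))} (hy : y ∈ Q.sp _) :
    D.op y ∈ algSpan W _ := by
  rw [D.op_apply]
  refine Submodule.smul_mem _ _ (Submodule.sum_mem _ fun i _ => ?_)
  refine span_mul (span_map _ (AS_span (D.dual.ha i))) (span_map _ ?_)
  exact ih (ClassPred.sp_push _ (ClassPred.sp_mul
    (ClassPred.sp_map _ (ClassPred.alg_le (AS_span (D.dual.hb i)))) hy))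

theorem ptt_alg {n : ℕ} {c : Fin (n + 1) → ι} (D : ∀ s, Slot W Z (fun s => P (c s)) s)
    (ih : ∀ s : Fin (n + 1), QA Q Z P fun t => c (s.succAbove t))
    {h : W.H (VV ops Z (n + 1) fun s => P (c s))} (hh : h ∈ Q.sp _) (l : List (Fin (n + 1))) :
    ptt D l h ∈ Q.sp _ ∧ h - ptt D l h ∈ algSpan W _ := by
  induction l with
  | nil =>
    rw [ptt_nil, Module.End.one_apply, sub_self]
    exact ⟨hh, Submodule.zero_mem _⟩
  | cons s l ih' =>
    have h1 := op_alg s (D s) (ih s) ih'.1
    rw [ptt_cons]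
    refine ⟨Submodule.sub_mem _ ih'.1 (ClassPred.alg_le h1), ?_⟩
    have h2 : h - (ptt D l h - (D s).op (ptt D l h)) =
        (h - ptt D l h) + (D s).op (ptt D l h) := by abel
    rw [h2]
    exact Submodule.add_mem _ ih'.2 h1

/-- **Classes without forms.** -/
theorem alg_of_FF (S : Setting W Z P) {n : ℕ} (hn : 0 < n) (c : Fin n → ι)
    (h1 : (1 : W.H (VV ops Z n fun s => P (c s))) ≠ 0)
    (ih : ∀ m < n, ∀ c' : Fin m → ι, QA Q Z P c')
    {h : W.H (VV ops Z n fun s => P (c s))} (hh : h ∈ Q.sp _)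
    (hF : ∀ v, FF c h v = 0) : h ∈ algSpan W _ := by
  classical
  match n, hn, c, h1, ih, h, hh, hF with
  | n + 1, _, c, h1, ih, h, hh, hF =>
    have hT : ∀ s, ∀ y ∈ transcendental W (P (c s)).X, OddC W y :=
      fun s y hy => ⟨_, S.odd _, S.mid _ hy⟩
    obtain ⟨D⟩ : Nonempty (∀ s, Slot W Z (fun s => P (c s)) s) :=
      ⟨fun s => (exists_slot s h1 (S.num (c s))).some⟩
    have hz := ptt_zero D hT (h := h) (by
      intro x hx
      have h2 := hF fun s => Pi.single (c s) ⟨x s, hx s⟩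
      rw [FF_apply] at h2
      have h3 : (FL.ev c fun s =>
          Pi.single (c s) (⟨x s, hx s⟩ : transcendental W (P (c s)).X)) = x := by
        funext s
        rw [FL.ev, Pi.single_eq_same]
      rwa [h3] at h2)
    have h2 := (ptt_alg D (fun s => ih n (by omega) _) hh (List.finRange (n + 1))).2
    rwa [hz, sub_zero] at h2

theorem isK_alg {n : ℕ} {c : Fin n → ι}
    {T : Module.End W.K (W.H (VV ops Z n fun s => P (c s)))} (hT : IsK.{u, 0, 0} W Z P c T)
    (ih : ∀ m < n, ∀ c' : Fin m → ι, QA Q Z P c')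
    {h : W.H (VV ops Z n fun s => P (c s))} (hh : h ∈ Q.sp _) : T h ∈ algSpan W _ := by
  obtain ⟨m, c', R, θ, κ, l, hm, hθ, -, -, -, -, hTh⟩ := hT
  rw [hTh]
  refine Submodule.smul_mem _ _ (span_mul (AS_span hθ) (span_map R ?_))
  exact ih m hm c' (ClassPred.sp_push R (ClassPred.sp_mul (ClassPred.alg_le (AS_span hθ)) hh))

variable [Fintype ι] [DecidableEq ι] {g : ι → ℕ}
  {b : ∀ i, Module.Basis (Fin (g i) × Bool) W.K (transcendental W (P i).X)}

/-- **The induction step.** -/
theorem step (S : Setting W Z P) {A : LieAct W Ξ} (H : A.Rank2 P)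
    (hb : ∀ i x y, bf W P i (b i x) (b i y) = sf W.K x y)
    (hQ : ∀ (X : 𝒱.Obj) j c, Q.P X j c → ∀ ξ, A.d ξ X c = ((j : W.K) * A.mu ξ) • c)
    {n : ℕ} (hn : 0 < n) (c : Fin n → ι)
    (h1 : (1 : W.H (VV ops Z n fun s => P (c s))) ≠ 0)
    (ih : ∀ m < n, ∀ c' : Fin m → ι, QA Q Z P c')
    (hsm : ∀ e ≤ Z.X.dim, Even (n + e) → primRank W Z.X Z.D e <
      ∏ i, ((univ.filter fun s => c s = i).card + 1)) : QA Q Z P c := by
  rw [QA, ← ClassPred.conj_iff]
  intro j h hh
  obtain ⟨I, _, T, r, hT, htr⟩ := S.exists_traceless.{u, 0, 0} hb (c := c) h1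
  set B : Module.End W.K (W.H (VV ops Z n fun s => P (c s))) := ∑ p, T p with hBdef
  have hBalg : ∀ x ∈ Q.sp _, B x ∈ algSpan W _ := by
    intro x hx
    rw [hBdef, LinearMap.sum_apply]
    exact Submodule.sum_mem _ fun p _ => isK_alg (hT p) ih hx
  have hBgr : ∀ l, ∀ x ∈ W.gr _ l, B x ∈ W.gr _ l := by
    intro l x hx
    rw [hBdef, LinearMap.sum_apply]
    exact Submodule.sum_mem _ fun p _ => (hT p).gr hx
  have hpB : ∀ x, (x ∈ Q.sp _ ∧ x ∈ W.gr (VV ops Z n fun s => P (c s)) (2 * j)) →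
      (pe r B x ∈ Q.sp _ ∧ pe r B x ∈ W.gr (VV ops Z n fun s => P (c s)) (2 * j)) :=
    pe_pres (M := fun x => x ∈ Q.sp _ ∧ x ∈ W.gr (VV ops Z n fun s => P (c s)) (2 * j))
      ⟨Submodule.zero_mem _, Submodule.zero_mem _⟩
      (fun x y hx hy => ⟨Submodule.add_mem _ hx.1 hy.1, Submodule.add_mem _ hx.2 hy.2⟩)
      (fun q x hx => ⟨Submodule.smul_mem _ _ hx.1, Submodule.smul_mem _ _ hx.2⟩)
      fun x hx => ⟨ClassPred.alg_le (hBalg x hx.1), hBgr _ x hx.2⟩
  have hcomm : pe r B (B h) = B (pe r B h) := (pe_commutes (U := B) (fun x => rfl) h).symm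
  have hh1 := hpB h ⟨ClassPred.sp_of hh, Q.gr hh⟩
  have hG : pe r B (B h) ∈ algSpan W _ := by
    rw [hcomm]
    exact hBalg _ hh1.1
  set h' := h - pe r B (B h) with hh'
  have hA' : h' ∈ Q.sp _ := Submodule.sub_mem _ (ClassPred.sp_of hh) (ClassPred.alg_le hG)
  have hgr' : h' ∈ W.gr _ (2 * j) := by
    refine Submodule.sub_mem _ (Q.gr hh) ?_
    rw [hcomm]
    exact hBgr _ _ hh1.2
  have hP' : Q.P _ j h' := ClassPred.sp_hom hA' hgr'
  have hdim : (VV ops Z n fun s => P (c s)).dim = ∑ s, (P (c s)).X.dim + Z.X.dim := dim_VV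
  have hev : Even (∑ s, (P (c s)).X.dim + n) := by
    have h1 : ∑ s : Fin n, (P (c s)).X.dim + n = ∑ s : Fin n, ((P (c s)).X.dim + 1) := by
      rw [Finset.sum_add_distrib, Finset.sum_const, Finset.card_univ, Fintype.card_fin,
        smul_eq_mul, mul_one]
    rw [h1]
    exact Finset.even_sum _ fun s _ => (S.odd (c s)).add_odd odd_one
  have h2 : h' ∈ algSpan W _ := alg_of_FF S hn c h1 ih hA' <|
    FF_vanish S H hb hn hgr' (hQ _ _ _ hP') (fun s t hst hct => htr s t hst hct h)
      fun e he e' he' h2 h3 => hsm e' (by omega) (by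
        rw [Nat.even_iff] at hev h3 ⊢
        omega)
  have h3 : h = h' + pe r B (B h) := by rw [hh']; abel
  have h4 : h ∈ algSpan W _ := by
    rw [h3]
    exact Submodule.add_mem _ h2 hG
  have h5 : ∀ x ∈ algSpan W (VV ops Z n fun s => P (c s)),
      H914.proj (W.isInternal _) (2 * j) x ∈ spanCycles W _ (j : ℤ) := by
    intro x hx
    rw [algSpan] at hx
    induction hx using Submodule.span_induction with
    | mem x hx =>
      obtain ⟨i, z, hz, rfl⟩ := Set.mem_iUnion.1 hx
      by_cases hi : i = j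
      · subst hi
        rw [proj_same _ (W.cl_mem hz)]
        exact Submodule.subset_span ⟨i, rfl, z, hz, rfl⟩
      · rw [proj_ne _ (W.cl_mem hz) (by omega)]
        exact Submodule.zero_mem _
    | zero => rw [map_zero]; exact Submodule.zero_mem _
    | add a b _ _ ha hb => rw [map_add]; exact Submodule.add_mem _ ha hb
    | smul r a _ ha => rw [map_smul]; exact Submodule.smul_mem _ _ ha
  have h6 := h5 h h4
  rwa [proj_same _ (Q.gr hh)] at h6

end step

/-- varieties without cohomology -/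
theorem qa_of_zero {Q : ClassPred W} (h : (1 : W.H X) = 0) : Q.sp X ≤ algSpan W X := by
  intro c _
  have h1 : c = 0 := by rw [← one_mul c, h, zero_mul]
  rw [h1]
  exact Submodule.zero_mem _

section main

variable {Ξ : Type w} {Z : Polarized 𝒱} {ι : Type} {P : ι → Polarized 𝒱} {Q : ClassPred W}

/-- The case of finitely many varieties. -/
theorem finite_case [Fintype ι] [DecidableEq ι] (S : Setting W Z P) {A : LieAct W Ξ}
    (H : A.Rank2 P)
    (hQ : ∀ (X : 𝒱.Obj) j c, Q.P X j c → ∀ ξ, A.d ξ X c = ((j : W.K) * A.mu ξ) • c)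
    (hZ : Q.sp Z.X ≤ algSpan W Z.X)
    (hs : ∀ n, 0 < n → ∀ c : Fin n → ι, (∃ e ≤ Z.X.dim, Even (n + e) ∧
      ∏ i, ((univ.filter fun s => c s = i).card + 1) ≤ primRank W Z.X Z.D e) → QA Q Z P c)
    (n : ℕ) : ∀ c : Fin n → ι, QA Q Z P c := by
  induction n using Nat.strong_induction_on with
  | _ n ih =>
    intro c
    rcases Nat.eq_zero_or_pos n with rfl | hn
    · exact hZ
    by_cases h1 : (1 : W.H (VV ops Z n fun s => P (c s))) = 0
    · exact qa_of_zero h1
    by_cases h2 : ∃ e ≤ Z.X.dim, Even (n + e) ∧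
      ∏ i, ((univ.filter fun s => c s = i).card + 1) ≤ primRank W Z.X Z.D e
    · exact hs n hn c h2
    obtain ⟨g, b, hb⟩ := S.exists_bases
    refine step S H hb hQ hn c h1 ih fun e he hev => ?_
    by_contra h3
    exact h2 ⟨e, he, hev, not_lt.1 h3⟩

theorem setting_comp (S : Setting W Z P) {κ : Type} (f : κ → ι) :
    Setting W Z (fun i => P (f i)) where
  cycZ := S.cycZ
  hardZ := S.hardZ
  cyc i := S.cyc _
  hard i := S.hard _
  num i := S.num _
  odd i := S.odd _
  mid i := S.mid _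

theorem rank2_comp {A : LieAct W Ξ} (H : A.Rank2 P) {κ : Type} (f : κ → ι) (hf : Injective f) :
    A.Rank2 (fun i => P (f i)) where
  rank i := H.rank _
  scal i := H.scal _
  line i := H.line _
  hom i j hij := H.hom _ _ fun h => hij (hf h)

/-- **The finite level theorem.** -/
theorem qa_iff [DecidableEq ι] (S : Setting W Z P) {A : LieAct W Ξ} (H : A.Rank2 P)
    (hQ : ∀ (X : 𝒱.Obj) j c, Q.P X j c → ∀ ξ, A.d ξ X c = ((j : W.K) * A.mu ξ) • c) :
    (∀ (n : ℕ) (c : Fin n → ι), QA Q Z P c) ↔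
    Q.sp Z.X ≤ algSpan W Z.X ∧ ∀ (n : ℕ) (c : Fin n → ι), 0 < n →
      (∃ e ≤ Z.X.dim, Even (n + e) ∧ level c ≤ primRank W Z.X Z.D e) → QA Q Z P c := by
  constructor
  · intro h1
    exact ⟨h1 0 Fin.elim0, fun n c _ _ => h1 n c⟩
  rintro ⟨hLZ, hs⟩ n c
  -- the colours which are used
  set I : Finset ι := univ.image c with hI
  have hc : ∀ s, c s ∈ I := fun s => mem_image_of_mem c (mem_univ s)
  have h1 := finite_case (P := fun i : I => P (i : ι)) (setting_comp S _)
    (rank2_comp H _ Subtype.val_injective) hQ hLZ (fun m hm c' hc' =>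
      hs m (fun s => (c' s : ι)) hm ?_) n fun s => ⟨c s, hc s⟩
  · exact h1
  obtain ⟨e, he, hev, hle⟩ := hc'
  refine ⟨e, he, hev, le_trans (le_of_eq ?_) hle⟩
  rw [level]
  have h2 : ∀ i : I, (univ.filter fun s => (c' s : ι) = (i : ι)) =
      (univ.filter fun s => c' s = i) := by
    intro i
    ext s
    rw [mem_filter, mem_filter, Subtype.ext_iff]
  have h3 : ∏ i : I, ((univ.filter fun s => c' s = i).card + 1) =
      ∏ i ∈ I, ((univ.filter fun s => (c' s : ι) = i).card + 1) := by
    rw [← Finset.prod_coe_sort I fun i => (univ.filter fun s => (c' s : ι) = i).card + 1]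
    exact Finset.prod_congr rfl fun i _ => by rw [h2 i]
  rw [h3]
  refine Finset.prod_subset ?_ ?_
  · intro i hi
    obtain ⟨s, _, rfl⟩ := mem_image.1 hi
    exact (c' s).2
  · intro i _ hi
    have h4 : (univ.filter fun s => (c' s : ι) = i) = ∅ := by
      rw [filter_eq_empty_iff]
      intro s _ hs'
      exact hi (mem_image.2 ⟨s, mem_univ s, hs'⟩)
    rw [h4, card_empty, zero_add]

end main

end Pool.Agent.H88.GP
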