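import Pool.Agent.H88.FL.PDefs2
import Pool.Agent.H88.L.H914R2.KDefs

/-!
# De Rham structures on a Weil cohomology theory: definitions

In the intended use `k` is the field of algebraic numbers, `W` is the cohomology of the complex
manifolds with rational coefficients, `F` is the field of algebraic numbers in `ℂ`, and
`dR X` is the algebraic de Rham cohomology of `X`, as a subset of the cohomology with complex
coefficients.
-/

open CategoryTheory AlgebraicGeometry

open scoped TensorProduct

set_option autoImplicit false

universe u

namespace Pool.Agent.H88.GP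

/-- The number `2 π i`. -/
noncomputable def twoPiI : ℂ := 2 * Real.pi * Complex.I

section Alg

/-- The algebra `A` with complex coefficients. -/
def Base (K A : Type) [Field K] [Algebra K ℂ] [Ring A] [Algebra K A] : Type := ℂ ⊗[K] A

variable {K : Type} [Field K] [Algebra K ℂ] {A B : Type} [Ring A] [Algebra K A] [Ring B]
  [Algebra K B]

/-- The ring structure. -/
noncomputable def baseRing : Ring (Base K A) := (Algebra.TensorProduct.instRing : Ring (ℂ ⊗[K] A))

noncomputable instance : Ring (Base K A) := baseRing

/-- The structure of an algebra over the complex numbers. -/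
noncomputable def baseAlgebra : Algebra ℂ (Base K A) :=
  (Algebra.TensorProduct.leftAlgebra : Algebra ℂ (ℂ ⊗[K] A))

noncomputable instance : Algebra ℂ (Base K A) := baseAlgebra

/-- The extension of an algebra homomorphism to complex coefficients. -/
noncomputable def baseMap (f : A →ₐ[K] B) : Base K A →ₐ[ℂ] Base K B :=
  Algebra.TensorProduct.map (AlgHom.id ℂ ℂ) f

/-- The extension of a linear map to complex coefficients. -/
noncomputable def baseLin (f : A →ₗ[K] B) : Base K A →ₗ[ℂ] Base K B :=
  (f.baseChange ℂ : ℂ ⊗[K] A →ₗ[ℂ] ℂ ⊗[K] B)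

/-- The extension of a functional to complex coefficients. -/
noncomputable def baseTr (t : A →ₗ[K] K) : Base K A →ₗ[ℂ] ℂ :=
  (TensorProduct.AlgebraTensorModule.rid K ℂ ℂ).toLinearMap ∘ₗ t.baseChange ℂ

/-- The element `r c`. -/
noncomputable def tm (r : ℂ) (c : A) : Base K A := (r ⊗ₜ[K] c : ℂ ⊗[K] A)

/-- The extension of `f` to complex coefficients maps `S` to `T`. -/
def Pres (f : A →ₗ[K] B) (S : Set (Base K A)) (T : Set (Base K B)) : Prop :=
  ∀ a ∈ S, baseLin f a ∈ T

/-- The extension of `f` to complex coefficients maps `S` to `T`. -/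
def PresAlg (f : A →ₐ[K] B) (S : Set (Base K A)) (T : Set (Base K B)) : Prop :=
  ∀ a ∈ S, baseMap f a ∈ T

/-- The map `f` vanishes on all `C j`, its values are in `T`, and the extension of `(2 π i) ^ q f` to
complex coefficients maps `S` to `(2 π i) ^ p S'`. -/
structure TwMor (f : A →ₗ[K] B) (p q : ℕ) (C : ℕ → Set A) (T : Submodule K B) (S : Set (Base K A))
    (S' : Set (Base K B)) : Prop where
  zero : ∀ j, ∀ c ∈ C j, f c = 0
  mem : ∀ x, f x ∈ T
  tw : ∀ a ∈ S, ∃ b ∈ S', twoPiI ^ q • baseLin f a = twoPiI ^ p • b

/-- No nonzero complex multiple of a nonzero element of `T` is in `S`. -/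
def LineFree (T : Submodule K A) (S : Set (Base K A)) : Prop :=
  ∀ (z : ℂ), ∀ t ∈ T, tm z t ∈ S → z = 0 ∨ t = 0

/-- The elements `c` of `G` with `(2 π i) ^ j c` in `S` are linear combinations of elements
of `C`. -/
def SpanDRB (G : Submodule K A) (C : Set A) (j : ℕ) (S : Set (Base K A)) : Prop :=
  ∀ c ∈ G, tm (twoPiI ^ j) c ∈ S → c ∈ Submodule.span K C

/-- The formal properties of the de Rham cohomology `S`, a subspace over the field `F` of the
cohomology with complex coefficients of a variety of dimension `d` with orientation `t`, where `C j`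
is the set of the classes of the algebraic cycles of codimension `j`. -/
structure IsDeRham (F : Subfield ℂ) (d : ℕ) (t : A →ₗ[K] K) (C : ℕ → Set A)
    (S : Set (Base K A)) : Prop where
  zero : 0 ∈ S
  add : ∀ a ∈ S, ∀ b ∈ S, a + b ∈ S
  smul : ∀ r ∈ F, ∀ a ∈ S, r • a ∈ S
  scal : ∀ r : K, algebraMap K ℂ r ∈ F
  span : Submodule.span ℂ S = ⊤
  mul : ∀ a ∈ S, ∀ b ∈ S, a * b ∈ S
  cyc : ∀ j, ∀ c ∈ C j, tm (twoPiI ^ j) c ∈ S
  tr : ∀ a ∈ S, ∃ r ∈ F, baseTr t a = twoPiI ^ d * r

end Alg

section Lin

variable {K V V' : Type} [Field K] [AddCommGroup V] [Module K V] [AddCommGroup V'] [Module K V']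

/-- `f` is zero. -/
def IsZeroMap (f : V →ₗ[K] V') : Prop :=
  ∀ x, f x = 0

/-- `f` is a scalar on `T`. -/
def ScalarOn (f : V →ₗ[K] V) (T : Submodule K V) : Prop :=
  ∃ r : K, ∀ t ∈ T, f t = r • t

/-- `T` is a subspace of `G` of dimension two. -/
structure PlaneIn (T G : Submodule K V) : Prop where
  le : T ≤ G
  rank : Module.finrank K T = 2

/-- The dimension of the space of the elements of `G` and `T` whose product with `L ^ m` is zero. -/
noncomputable def kerRank {A : Type} [Ring A] [Algebra K A] (G T : Submodule K A) (L : A) (m : ℕ) :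
    ℕ :=
  Module.finrank K ↥(G ⊓ T ⊓ LinearMap.ker (LinearMap.mulLeft K (L ^ m)))

end Lin

open Pool.Agent.H914 Pool.Agent.H914.VarClass Pool.Agent.H914.VarClass.Obj
  Pool.Agent.H914.WeilCohomology Pool.Agent.H281R3.HT Pool.Agent.H88.FL

variable {k : Type u} [Field k] {𝒱 : VarClass k} {ops : CycleOps 𝒱}

/-- A de Rham structure: for each variety `X` a subspace `dR X` over the field `F` which spans the
cohomology with complex coefficients, is graded, stable under products and pull-backs, contains the
classes `(2 π i) ^ j cl(z)` of the algebraic cycles `z` of codimension `j`, and on which the values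
of the orientation lie in `(2 π i) ^ dim X F`. The coefficients of `W` lie in `F`. -/
structure DeRham (W : WeilCohomology.{u, 0} ops) [Algebra W.K ℂ] (F : Subfield ℂ) where
  /-- the de Rham cohomology -/
  dR : ∀ X : 𝒱.Obj, Set (Base W.K (W.H X))
  form : ∀ X, IsDeRham F X.dim (W.tr X) (algClasses W X) (dR X)
  graded : ∀ X (i : ℕ), Pres (proj (W.isInternal X) i) (dR X) (dR X)
  map : ∀ {X Y : 𝒱.Obj} (f : X ⟶ Y), PresAlg (W.map f) (dR Y) (dR X)

variable {W : WeilCohomology.{u, 0} ops} [Algebra W.K ℂ] {F : Subfield ℂ}

/-- The Grothendieck period conjecture `GPC^j` for `X`: the de Rham-Betti classes of codimension `j`,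
that is the classes `c` in `H^(2 j)(X)` such that `(2 π i) ^ j c` lies in the de Rham cohomology,
are linear combinations of classes of algebraic cycles of codimension `j`. -/
def GPC (D : DeRham W F) (X : 𝒱.Obj) (j : ℕ) : Prop :=
  SpanDRB (W.gr X (2 * j)) (algClasses W X j) j (D.dR X)

/-- `f` gives a homomorphism from the transcendental part `T(X)(p)` to `T(Y)(q)` of de Rham-Betti
structures, where `p` and `q` are the integral parts of the halves of the dimensions. -/
def IsMor (D : DeRham W F) (X Y : 𝒱.Obj) (f : W.H X →ₗ[W.K] W.H Y) : Prop :=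
  TwMor f (X.dim / 2) (Y.dim / 2) (algClasses W X) (transcendental W Y) (D.dR X) (D.dR Y)

/-- The only endomorphisms of the transcendental part of `X`, as a de Rham-Betti structure, are the
scalars. -/
def ScalarEnd (D : DeRham W F) (X : 𝒱.Obj) : Prop :=
  ∀ f, IsMor D X X f → ScalarOn f (transcendental W X)

/-- No nonzero complex multiple of a nonzero transcendental class of `X` is in the de Rham
cohomology. -/
def NoLine (D : DeRham W F) (X : 𝒱.Obj) : Prop :=
  LineFree (transcendental W X) (D.dR X)

/-- There are no nonzero homomorphisms from the transcendental part of `X` to the transcendental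
part of `Y`, up to the twist. -/
def NoHom (D : DeRham W F) (X Y : 𝒱.Obj) : Prop :=
  ∀ f, IsMor D X Y f → IsZeroMap f

/-- `P` is a variety of odd dimension with a divisor which satisfies the hard Lefschetz theorem;
homological and numerical equivalence coincide for it; its transcendental cohomology is in the
middle degree, of dimension two. -/
structure RankTwo (W : WeilCohomology.{u, 0} ops) (P : Polarized 𝒱) : Prop where
  odd : Odd P.X.dim
  div : P.X.IsCyc 1 P.D
  hard : HardLefschetz W P.X P.D
  homEqNum : HomEqNum W P.X
  plane : PlaneIn (transcendental W P.X) (W.gr P.X P.X.dim)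

/-- The `P i` are varieties of odd dimension with divisors which satisfy the hard Lefschetz theorem;
homological and numerical equivalence coincide for them; the transcendental cohomology `T i` of `P i`
is in the middle degree, of dimension two, its only endomorphisms as a de Rham-Betti structure are
the scalars and no complex multiple of a nonzero element is in the de Rham cohomology; there are no
nonzero homomorphisms between different `T i`, up to twists. -/
structure RankTwoFamily (D : DeRham W F) {ι : Type} (P : ι → Polarized 𝒱) : Prop where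
  two : ∀ i, RankTwo W (P i)
  scal : ∀ i, ScalarEnd D (P i).X
  line : ∀ i, NoLine D (P i).X
  hom : ∀ i j, i ≠ j → NoHom D (P i).X (P j).X

/-- The dimension of the space of the primitive classes `x` in `H^e(X)`, that is
`D ^ (dim X - e + 1) x = 0`, which are orthogonal to all algebraic classes. -/
noncomputable def transRank (W : WeilCohomology.{u, 0} ops) (Z : Polarized 𝒱) (e : ℕ) : ℕ :=
  kerRank (W.gr Z.X e) (transcendental W Z.X) (W.cl Z.X Z.D) (Z.X.dim - e + 1)

end Pool.Agent.H88.GP
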