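import Pool.Agent.H88.GP.PerLie2
import Pool.Agent.H88.FL.Level

/-!
# The finite level theorem for the period conjecture
-/

open CategoryTheory AlgebraicGeometry

open scoped TensorProduct

set_option autoImplicit false
set_option linter.unusedSectionVars false

universe u w

namespace Pool.Agent.H88.GP

open Module
open Pool.Agent.H914 Pool.Agent.H914.VarClass Pool.Agent.H914.VarClass.Obj
  Pool.Agent.H914.WeilCohomology Pool.Agent.H281R3.HT Pool.Agent.H88.FL

variable {k : Type u} [Field k] {𝒱 : VarClass k} {ops : CycleOps 𝒱}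
  {W : WeilCohomology.{u, 0} ops} {X Y : 𝒱.Obj}

/-- Maps of the transcendental parts extend to the cohomology. -/
theorem exists_ext {Ξ : Type w} (A : LieAct W Ξ) (hX : HomEqNum W X)
    (f : transcendental W X →ₗ[W.K] transcendental W Y) :
    ∃ g : W.H X →ₗ[W.K] W.H Y, (∀ t : transcendental W X, g t = f t) ∧
      (∀ j, ∀ c ∈ algClasses W X j, g c = 0) ∧ (∀ x, g x ∈ transcendental W Y) ∧
      ∀ ξ (κ : W.K), (∀ t, A.dT ξ Y (f t) = f (A.dT ξ X t) + κ • f t) →
        ∀ x, A.d ξ Y (g x) = g (A.d ξ X x) + κ • g x := by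
  obtain ⟨N, a, b, h⟩ := exists_dualFam hX
  let π : W.H X →ₗ[W.K] transcendental W X :=
    LinearMap.codRestrict (transcendental W X) (LinearMap.id - al W a b) fun x =>
      h.sub_al_trans hX x
  have hπ : ∀ x, (π x : W.H X) = x - al W a b x := fun x => rfl
  have hd : ∀ ξ x, π (A.d ξ X x) = A.dT ξ X (π x) := by
    intro ξ x
    apply Subtype.ext
    rw [hπ, A.dT_apply, hπ, map_sub]
    congr 1
    have h1 : A.d ξ X x = A.d ξ X (al W a b x) + A.d ξ X (x - al W a b x) := by
      rw [← map_add, add_sub_cancel]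
    rw [h1, map_add, h.al_span (A.alg ξ (h.al_mem x)),
      h.al_trans (A.trans ξ (h.sub_al_trans hX x)), add_zero]
  refine ⟨(transcendental W Y).subtype ∘ₗ f ∘ₗ π, ?_, ?_, ?_, ?_⟩
  · intro t
    have h1 : π t = t := by
      apply Subtype.ext
      rw [hπ, h.al_trans t.2, sub_zero]
    change ((f (π t) : transcendental W Y) : W.H Y) = f t
    rw [h1]
  · intro j c hc
    have h1 : π c = 0 := by
      apply Subtype.ext
      rw [hπ, h.al_span (Submodule.subset_span (Set.mem_iUnion.2 ⟨j, hc⟩)), sub_self]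
      rfl
    change ((f (π c) : transcendental W Y) : W.H Y) = 0
    rw [h1, map_zero]
    rfl
  · intro x
    exact (f (π x)).2
  · intro ξ κ hf x
    change A.d ξ Y (f (π x) : W.H Y) = (f (π (A.d ξ X x)) : W.H Y) + κ • (f (π x) : W.H Y)
    rw [hd]
    exact congrArg (fun t : transcendental W Y => (t : W.H Y)) (hf (π x))

variable [Algebra W.K ℂ] {F : Subfield ℂ} {D : DeRham W F}

/-- The de Rham-Betti classes. -/
def drbPred (D : DeRham W F) : ClassPred W where
  P X j c := IsDRB D X j c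
  gr h := h.1
  zero := IsDRB.zero
  add := IsDRB.add
  smul r _ h := h.smul r
  cl := IsDRB.cl
  mul := IsDRB.mul
  map f _ _ h := h.map f
  push f _ _ hl _ h := h.push f hl

theorem RankTwoFamily.rank2 [IsAlgClosed F] {ι : Type} {P : ι → Polarized 𝒱}
    (h : RankTwoFamily D P) : (perAct D).Rank2 P where
  rank i := (h.two i).plane.rank
  scal i f hf := by
    obtain ⟨g, hg1, hg2, hg3, hg4⟩ := exists_ext (perAct D) (h.two i).homEqNum f
    have h1 : IsMor D (P i).X (P i).X g := by
      refine ⟨hg2, hg3, dR_of_comm D _ _ fun ξ x => ?_⟩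
      rw [sub_self, zero_mul]
      exact hg4 ξ 0 (fun t => by rw [zero_smul, add_zero, hf]) x
    obtain ⟨r, hr⟩ := h.scal i g h1
    exact ⟨r, fun t => Subtype.ext (by
      rw [← hg1]
      exact hr t t.2)⟩
  line i t ht := by
    by_contra h0
    have h1 : (t : W.H (P i).X) ≠ 0 := fun h2 => h0 (Subtype.ext h2)
    obtain ⟨z, hz, hzt⟩ := line_of_eig D h1 fun ξ => by
      obtain ⟨r, hr⟩ := ht ξ
      exact ⟨r, congrArg (fun t : transcendental W (P i).X => (t : W.H (P i).X)) hr⟩
    rcases h.line i z t t.2 hzt with h2 | h2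
    · exact hz h2
    · exact h1 h2
  hom i j hij f hf := by
    obtain ⟨g, hg1, hg2, hg3, hg4⟩ := exists_ext (perAct D) (h.two i).homEqNum f
    have h1 : IsMor D (P i).X (P j).X g := by
      refine ⟨hg2, hg3, dR_of_comm D _ _ fun ξ x => ?_⟩
      exact hg4 ξ _ (fun t => hf ξ t) x
    have h2 := h.hom i j hij g h1
    apply LinearMap.ext
    intro t
    apply Subtype.ext
    rw [← hg1, h2]
    rfl

theorem RankTwoFamily.setting {ι : Type} {P : ι → Polarized 𝒱} (h : RankTwoFamily D P)
    {Z : Polarized 𝒱} (hZ : Z.X.IsCyc 1 Z.D) (hL : HardLefschetz W Z.X Z.D) :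
    Setting W Z P where
  cycZ := hZ
  hardZ := hL
  cyc i := (h.two i).div
  hard i := (h.two i).hard
  num i := (h.two i).homEqNum
  odd i := (h.two i).odd
  mid i := (h.two i).plane.le

theorem transRank_eq (Z : Polarized 𝒱) (e : ℕ) : transRank W Z e = primRank W Z.X Z.D e := rfl

/-- **The finite level theorem for the period conjecture.** -/
theorem finite_level [IsAlgClosed F] {ι : Type} [DecidableEq ι] {P : ι → Polarized 𝒱}
    (h : RankTwoFamily D P) {Z : Polarized 𝒱} (hZ : Z.X.IsCyc 1 Z.D)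
    (hL : HardLefschetz W Z.X Z.D) :
    (∀ (n : ℕ) (c : Fin n → ι) (j : ℕ), GPC D (mixProd ops Z n fun s => P (c s)).X j) ↔
    (∀ j, GPC D Z.X j) ∧ ∀ (n : ℕ) (c : Fin n → ι), 0 < n →
      (∃ e ≤ Z.X.dim, Even (n + e) ∧ level c ≤ transRank W Z e) →
      ∀ j, GPC D (mixProd ops Z n fun s => P (c s)).X j := by
  have h1 := qa_iff (Q := drbPred D) (h.setting hZ hL) h.rank2
    fun X j c hc ξ => dd_tw D hc.2
  have h2 : ∀ (n : ℕ) (c : Fin n → ι), (∀ j, GPC D (mixProd ops Z n fun s => P (c s)).X j) ↔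
      QA (drbPred D) Z P c := fun n c => by
    simp only [gpc_iff]
    exact (drbPred D).conj_iff
  have h3 : (∀ j, GPC D Z.X j) ↔ (drbPred D).sp Z.X ≤ algSpan W Z.X := by
    simp only [gpc_iff]
    exact (drbPred D).conj_iff
  rw [h3]
  simp only [h2]
  exact h1

end Pool.Agent.H88.GP
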