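import Pool.Agent.H88.GP.Per
import Pool.Agent.H88.GP.Deriv

/-!
# The derivations given by the derivations of the complex numbers
-/

open CategoryTheory AlgebraicGeometry

open scoped TensorProduct

set_option autoImplicit false
set_option linter.unusedSectionVars false

universe u

namespace Pool.Agent.H88.GP

open Module
open Pool.Agent.H914 Pool.Agent.H914.VarClass Pool.Agent.H914.VarClass.Obj
  Pool.Agent.H914.WeilCohomology Pool.Agent.H281R3.HT Pool.Agent.H88.FL

section alg

variable {K : Type} [Field K] [Algebra K ℂ] {A B : Type} [Ring A] [Algebra K A] [Ring B]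
  [Algebra K B] {F : Subfield ℂ}

theorem der_mem (δ : Derivation F ℂ ℂ) {z : ℂ} (hz : z ∈ F) : δ z = 0 :=
  δ.map_algebraMap (⟨z, hz⟩ : F)

theorem der_mul (δ : Derivation F ℂ ℂ) (z w : ℂ) : δ (z * w) = z * δ w + w * δ z :=
  δ.leibniz z w

/-- a derivation as a linear map -/
noncomputable def dK (hKF : ∀ r : K, algebraMap K ℂ r ∈ F) (δ : Derivation F ℂ ℂ) :
    ℂ →ₗ[K] ℂ where
  toFun z := δ z
  map_add' := map_add δ
  map_smul' r z := by
    rw [Algebra.smul_def, der_mul, der_mem δ (hKF r), mul_zero, add_zero, RingHom.id_apply,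
      Algebra.smul_def]

variable (hKF : ∀ r : K, algebraMap K ℂ r ∈ F) (δ : Derivation F ℂ ℂ)

/-- the action on the coefficients -/
noncomputable def dB (A : Type) [Ring A] [Algebra K A] : Base K A →+ Base K A :=
  ((dK hKF δ).rTensor A).toAddMonoidHom

theorem dB_tm (r : ℂ) (c : A) : dB hKF δ A (tm r c) = tm (δ r) c := rfl

theorem dB_smul (z : ℂ) (a : Base K A) :
    dB hKF δ A (z • a) = δ z • a + z • dB hKF δ A a := by
  refine base_ind (p := fun a => dB hKF δ A (z • a) = δ z • a + z • dB hKF δ A a) ?_ ?_ ?_ a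
  · rw [smul_zero, smul_zero, map_zero, smul_zero, add_zero]
  · intro r c
    rw [smul_tm, dB_tm, dB_tm, smul_tm, smul_tm, der_mul, add_comm, mul_comm r]
    exact TensorProduct.add_tmul _ _ _
  · intro a b ha hb
    rw [smul_add, map_add, ha, hb, map_add, smul_add, smul_add]
    abel

theorem dB_mul (a b : Base K A) :
    dB hKF δ A (a * b) = dB hKF δ A a * b + a * dB hKF δ A b := by
  refine base_ind (p := fun a => dB hKF δ A (a * b) = dB hKF δ A a * b + a * dB hKF δ A b)
    ?_ ?_ ?_ a
  · rw [zero_mul, zero_mul, map_zero, zero_mul, add_zero]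
  · intro r c
    refine base_ind (p := fun b => dB hKF δ A (tm r c * b) =
      dB hKF δ A (tm r c) * b + tm r c * dB hKF δ A b) ?_ ?_ ?_ b
    · rw [mul_zero, mul_zero, map_zero, mul_zero, add_zero]
    · intro s d
      rw [tm_mul, dB_tm, dB_tm, dB_tm, tm_mul, tm_mul, der_mul, add_comm, mul_comm s]
      exact TensorProduct.add_tmul _ _ _
    · intro a b ha hb
      rw [mul_add, map_add, ha, hb, map_add, mul_add, mul_add]
      abel
  · intro a a' ha ha'
    rw [add_mul, map_add, ha, ha', map_add, add_mul, add_mul]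
    abel

theorem baseLin_tm (f : A →ₗ[K] B) (r : ℂ) (c : A) : baseLin f (tm r c) = tm r (f c) := rfl

theorem dB_lin (f : A →ₗ[K] B) (a : Base K A) :
    dB hKF δ B (baseLin f a) = baseLin f (dB hKF δ A a) := by
  refine base_ind (p := fun a => dB hKF δ B (baseLin f a) = baseLin f (dB hKF δ A a)) ?_ ?_ ?_ a
  · rw [map_zero, map_zero, map_zero, map_zero]
  · intro r c
    rfl
  · intro a b ha hb
    rw [map_add, map_add, ha, hb, map_add, map_add]

theorem baseMap_lin (f : A →ₐ[K] B) (a : Base K A) : baseMap f a = baseLin f.toLinearMap a := by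
  refine base_ind (p := fun a => baseMap f a = baseLin f.toLinearMap a) ?_ ?_ ?_ a
  · rw [map_zero, map_zero]
  · intro r c
    rfl
  · intro a b ha hb
    rw [map_add, map_add, ha, hb]

theorem dB_tr (t : A →ₗ[K] K) (a : Base K A) : baseTr t (dB hKF δ A a) = δ (baseTr t a) := by
  refine base_ind (p := fun a => baseTr t (dB hKF δ A a) = δ (baseTr t a)) ?_ ?_ ?_ a
  · rw [map_zero, map_zero, map_zero]
  · intro r c
    rw [dB_tm, baseTr_tm, baseTr_tm, der_mul, der_mem δ (hKF _), mul_zero, zero_add, mul_comm]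
  · intro a b ha hb
    rw [map_add, map_add, map_add, ha, hb, map_add]

/-- the extension of a functional on the complex numbers -/
noncomputable def lB (l : ℂ →ₗ[K] K) (A : Type) [Ring A] [Algebra K A] : Base K A →+ A :=
  ((TensorProduct.lid K A).toLinearMap ∘ₗ l.rTensor A).toAddMonoidHom

variable (l : ℂ →ₗ[K] K)

theorem lB_tm (r : ℂ) (c : A) : lB l A (tm r c) = l r • c := rfl

theorem lB_mul (a : Base K A) (y : A) : lB l A (a * tm 1 y) = lB l A a * y := by
  refine base_ind (p := fun a => lB l A (a * tm 1 y) = lB l A a * y) ?_ ?_ ?_ a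
  · rw [zero_mul, map_zero, zero_mul]
  · intro r c
    rw [tm_mul, lB_tm, lB_tm, mul_one, smul_mul_assoc]
  · intro a b ha hb
    rw [add_mul, map_add, ha, hb, map_add, add_mul]

theorem lB_mul' (x : A) (a : Base K A) : lB l A (tm 1 x * a) = x * lB l A a := by
  refine base_ind (p := fun a => lB l A (tm 1 x * a) = x * lB l A a) ?_ ?_ ?_ a
  · rw [mul_zero, map_zero, mul_zero]
  · intro r c
    rw [tm_mul, lB_tm, lB_tm, one_mul, mul_smul_comm]
  · intro a b ha hb
    rw [mul_add, map_add, ha, hb, map_add, mul_add]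

theorem lB_lin (f : A →ₗ[K] B) (a : Base K A) : lB l B (baseLin f a) = f (lB l A a) := by
  refine base_ind (p := fun a => lB l B (baseLin f a) = f (lB l A a)) ?_ ?_ ?_ a
  · rw [map_zero, map_zero, map_zero, map_zero]
  · intro r c
    rw [baseLin_tm, lB_tm, lB_tm, map_smul]
  · intro a b ha hb
    rw [map_add, map_add, ha, hb, map_add, map_add]

theorem lB_tr (t : A →ₗ[K] K) (a : Base K A) : t (lB l A a) = l (baseTr t a) := by
  refine base_ind (p := fun a => t (lB l A a) = l (baseTr t a)) ?_ ?_ ?_ a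
  · rw [map_zero, map_zero, map_zero, map_zero]
  · intro r c
    rw [lB_tm, baseTr_tm, map_smul, smul_eq_mul, mul_comm r, ← Algebra.smul_def, map_smul,
      smul_eq_mul, mul_comm]
  · intro a b ha hb
    rw [map_add, map_add, ha, hb, map_add, map_add]

theorem eq_zero_of_lB [Module.Finite K A] {a : Base K A} (h : ∀ l, lB l A a = 0) : a = 0 := by
  have h1 : ∀ t : A →ₗ[K] K, baseTr t a = 0 := by
    intro t
    rw [← Module.forall_dual_apply_eq_zero_iff K]
    intro l
    rw [← lB_tr, h l, map_zero]
  let e := Module.finBasis K A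
  have h2 : ∀ i, (e.baseChange ℂ).repr a i = 0 := by
    intro i
    rw [← h1 (e.coord i)]
    refine base_ind (p := fun a => (e.baseChange ℂ).repr a i = baseTr (e.coord i) a) ?_ ?_ ?_ a
    · rw [map_zero]
      exact congrArg (fun f => f i) (map_zero (e.baseChange ℂ).repr)
    · intro r c
      rw [baseTr_tm, Basis.coord_apply]
      have h6 : (e.baseChange ℂ).repr (r ⊗ₜ[K] c) i = e.repr c i • r :=
        Basis.baseChange_repr_tmul _ _ _ _ _
      have h7 : (e.baseChange ℂ).repr (tm r c) i = (e.baseChange ℂ).repr (r ⊗ₜ[K] c) i := rfl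
      rw [h7, h6, Algebra.smul_def, mul_comm]
    · intro a b ha hb
      rw [map_add, ← ha, ← hb]
      exact congrArg (fun f => f i) (map_add (e.baseChange ℂ).repr a b)
  have h5 : (e.baseChange ℂ).repr a = 0 := Finsupp.ext h2
  exact (e.baseChange ℂ).repr.map_eq_zero_iff.1 h5

end alg

end Pool.Agent.H88.GP
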