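import Pool.Agent.H88.GP.PerLie

/-!
# The derivations of the cohomology given by a de Rham structure
-/

open CategoryTheory AlgebraicGeometry

open scoped TensorProduct

set_option autoImplicit false
set_option linter.unusedSectionVars false

universe u

namespace Pool.Agent.H88.GP

open Module
open Pool.Agent.H914 Pool.Agent.H914.VarClass Pool.Agent.H914.VarClass.Obj
  Pool.Agent.H914.WeilCohomology Pool.Agent.H281R3.HT Pool.Agent.H88.FL

variable {k : Type u} [Field k] {𝒱 : VarClass k} {ops : CycleOps 𝒱}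
  {W : WeilCohomology.{u, 0} ops} [Algebra W.K ℂ] {F : Subfield ℂ} (D : DeRham W F)
  (δ : Derivation F ℂ ℂ) {X Y : 𝒱.Obj}

/-- the basis of the de Rham cohomology -/
noncomputable def eb (X : 𝒱.Obj) : Basis (Fin (form_dR D X).choose) ℂ (Base W.K (W.H X)) :=
  (form_dR D X).choose_spec.choose

theorem eb_spec (x : Base W.K (W.H X)) : x ∈ D.dR X ↔ ∀ i, (eb D X).repr x i ∈ F :=
  (form_dR D X).choose_spec.choose_spec x

theorem eb_mem (i : Fin (form_dR D X).choose) : eb D X i ∈ D.dR X := by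
  rw [eb_spec]
  intro j
  rw [Basis.repr_self, Finsupp.single_apply]
  split_ifs
  · exact F.one_mem
  · exact F.zero_mem

/-- the action on the coefficients -/
noncomputable def dC (X : 𝒱.Obj) : Base W.K (W.H X) →+ Base W.K (W.H X) :=
  dB (D.form X).scal δ (W.H X)

/-- the operator given by a derivation of the complex numbers -/
noncomputable def op (X : 𝒱.Obj) : Base W.K (W.H X) →ₗ[ℂ] Base W.K (W.H X) :=
  (eb D X).constr ℂ fun i => dC D δ X (eb D X i)

theorem op_eb (i : Fin (form_dR D X).choose) : op D δ X (eb D X i) = dC D δ X (eb D X i) :=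
  Basis.constr_basis _ _ _ _

theorem dC_expand (a : Base W.K (W.H X)) : dC D δ X a = op D δ X a +
    ∑ i, δ ((eb D X).repr a i) • eb D X i := by
  conv_lhs => rw [← (eb D X).sum_repr a]
  conv_rhs => rw [← (eb D X).sum_repr a]
  rw [map_sum, map_sum, ← Finset.sum_add_distrib]
  refine Finset.sum_congr rfl fun i _ => ?_
  rw [(eb D X).sum_repr a, (op D δ X).map_smul, op_eb]
  have h1 : dC D δ X ((eb D X).repr a i • eb D X i) =
      δ ((eb D X).repr a i) • eb D X i + (eb D X).repr a i • dC D δ X (eb D X i) :=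
    dB_smul _ _ _ _
  rw [h1, add_comm]

theorem op_dR {a : Base W.K (W.H X)} (ha : a ∈ D.dR X) : op D δ X a = dC D δ X a := by
  rw [dC_expand, Finset.sum_eq_zero, add_zero]
  intro i _
  rw [der_mem δ ((eb_spec D a).1 ha i), zero_smul]

theorem mem_of_op [IsAlgClosed F] {a : Base W.K (W.H X)}
    (h : ∀ δ : Derivation F ℂ ℂ, dC D δ X a = op D δ X a) : a ∈ D.dR X := by
  rw [eb_spec]
  intro i
  refine mem_of_der fun δ => ?_
  have h1 := h δ
  rw [dC_expand, add_eq_left] at h1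
  have h2 := Fintype.linearIndependent_iff.1 (eb D X).linearIndependent _ h1
  exact h2 i

theorem ext_dR {M : Type*} [AddCommGroup M] [Module ℂ M] {f g : Base W.K (W.H X) →ₗ[ℂ] M}
    (h : ∀ a ∈ D.dR X, f a = g a) : f = g :=
  LinearMap.ext_on (D.form X).span h

theorem op_lin {f : W.H X →ₗ[W.K] W.H Y} (hf : ∀ a ∈ D.dR X, baseLin f a ∈ D.dR Y)
    (a : Base W.K (W.H X)) : op D δ Y (baseLin f a) = baseLin f (op D δ X a) := by
  have h1 : op D δ Y ∘ₗ baseLin f = baseLin f ∘ₗ op D δ X := by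
    refine ext_dR D fun a ha => ?_
    rw [LinearMap.comp_apply, LinearMap.comp_apply, op_dR D δ (hf a ha), op_dR D δ ha]
    exact dB_lin _ δ f a
  exact LinearMap.congr_fun h1 a

theorem op_mul (a b : Base W.K (W.H X)) :
    op D δ X (a * b) = op D δ X a * b + a * op D δ X b := by
  have key : ∀ b ∈ D.dR X, ∀ a, op D δ X (a * b) = op D δ X a * b + a * op D δ X b := by
    intro b hb a
    have h1 : op D δ X ∘ₗ LinearMap.mulRight ℂ b =
        LinearMap.mulRight ℂ b ∘ₗ op D δ X + LinearMap.mulRight ℂ (op D δ X b) := by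
      refine ext_dR D fun a ha => ?_
      rw [LinearMap.comp_apply, LinearMap.add_apply, LinearMap.comp_apply,
        LinearMap.mulRight_apply, LinearMap.mulRight_apply, LinearMap.mulRight_apply,
        op_dR D δ ((D.form X).mul a ha b hb), op_dR D δ ha, op_dR D δ hb]
      exact dB_mul _ δ a b
    exact LinearMap.congr_fun h1 a
  have h2 : op D δ X ∘ₗ LinearMap.mulLeft ℂ a =
      LinearMap.mulLeft ℂ (op D δ X a) + LinearMap.mulLeft ℂ a ∘ₗ op D δ X := by
    refine ext_dR D fun b hb => ?_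
    rw [LinearMap.comp_apply, LinearMap.add_apply, LinearMap.comp_apply,
      LinearMap.mulLeft_apply, LinearMap.mulLeft_apply, LinearMap.mulLeft_apply]
    exact key b hb a
  exact LinearMap.congr_fun h2 b

theorem der_pow (j : ℕ) : δ (twoPiI ^ j) = twoPiI ^ j * ((j : ℂ) * (δ twoPiI / twoPiI)) := by
  induction j with
  | zero => simp
  | succ j ih =>
    rw [pow_succ, der_mul, ih]
    push_cast
    field_simp [twoPiI_ne]
    ring

theorem op_tr (a : Base W.K (W.H X)) : baseTr (W.tr X) (op D δ X a) =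
    ((X.dim : ℂ) * (δ twoPiI / twoPiI)) * baseTr (W.tr X) a := by
  have h1 : baseTr (W.tr X) ∘ₗ op D δ X =
      ((X.dim : ℂ) * (δ twoPiI / twoPiI)) • baseTr (W.tr X) := by
    refine ext_dR D fun a ha => ?_
    rw [LinearMap.comp_apply, LinearMap.smul_apply, op_dR D δ ha, smul_eq_mul]
    obtain ⟨r, hr, h⟩ := (D.form X).tr a ha
    have h2 : baseTr (W.tr X) (dC D δ X a) = δ (baseTr (W.tr X) a) := dB_tr _ δ _ _
    rw [h2, h, der_mul, der_mem δ hr, mul_zero, zero_add, der_pow]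
    ring
  exact LinearMap.congr_fun h1 a

theorem op_tw {j : ℕ} {c : W.H X} (hc : tm (twoPiI ^ j) c ∈ D.dR X) :
    op D δ X (tm 1 c) = tm ((j : ℂ) * (δ twoPiI / twoPiI)) c := by
  have h0 : twoPiI ^ j ≠ 0 := pow_ne_zero _ twoPiI_ne
  have h1 := op_dR D δ hc
  have h2 : dC D δ X (tm (twoPiI ^ j) c) = tm (δ (twoPiI ^ j)) c := rfl
  have h3 : (tm (twoPiI ^ j) c : Base W.K (W.H X)) = twoPiI ^ j • tm 1 c := by
    rw [smul_tm, mul_one]
  rw [h2, der_pow, h3, map_smul, ← smul_tm] at h1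
  have h4 := congrArg (fun z => (twoPiI ^ j)⁻¹ • z) h1
  simp only [smul_smul, inv_mul_cancel₀ h0, one_smul] at h4
  exact h4

theorem lB_smul (l : ℂ →ₗ[W.K] W.K) (r : W.K) (a : Base W.K (W.H X)) :
    lB l (W.H X) (algebraMap W.K ℂ r • a) = r • lB l (W.H X) a := by
  refine base_ind (p := fun a => lB l (W.H X) (algebraMap W.K ℂ r • a) = r • lB l (W.H X) a)
    ?_ ?_ ?_ a
  · rw [smul_zero, map_zero, smul_zero]
  · intro s c
    rw [smul_tm, lB_tm, lB_tm, ← Algebra.smul_def, map_smul, smul_smul, smul_eq_mul]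
  · intro a b ha hb
    rw [smul_add, map_add, ha, hb, map_add, smul_add]

/-- the derivation of the cohomology -/
noncomputable def dd (ξ : Derivation F ℂ ℂ × (ℂ →ₗ[W.K] W.K)) (X : 𝒱.Obj) :
    W.H X →ₗ[W.K] W.H X where
  toFun x := lB ξ.2 (W.H X) (op D ξ.1 X (tm 1 x))
  map_add' x y := by rw [tm_add, map_add, map_add]
  map_smul' r x := by rw [tm_smul, map_smul, lB_smul, RingHom.id_apply]

theorem dd_apply (ξ : Derivation F ℂ ℂ × (ℂ →ₗ[W.K] W.K)) (x : W.H X) :
    dd D ξ X x = lB ξ.2 (W.H X) (op D ξ.1 X (tm 1 x)) := rfl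

theorem tm_one_mul (x y : W.H X) : (tm 1 (x * y) : Base W.K (W.H X)) = tm 1 x * tm 1 y := by
  rw [tm_mul, mul_one]

theorem natCast_l (l : ℂ →ₗ[W.K] W.K) (j : ℕ) (z : ℂ) : l ((j : ℂ) * z) = (j : W.K) * l z := by
  rw [← nsmul_eq_mul, map_nsmul, nsmul_eq_mul]

theorem dd_tw {ξ : Derivation F ℂ ℂ × (ℂ →ₗ[W.K] W.K)} {j : ℕ} {c : W.H X}
    (hc : tm (twoPiI ^ j) c ∈ D.dR X) :
    dd D ξ X c = ((j : W.K) * ξ.2 (ξ.1 twoPiI / twoPiI)) • c := by
  rw [dd_apply, op_tw D ξ.1 hc, lB_tm, natCast_l]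

/-- **The derivations of the cohomology.** -/
noncomputable def perAct : LieAct W (Derivation F ℂ ℂ × (ℂ →ₗ[W.K] W.K)) where
  d := dd D
  mu ξ := ξ.2 (ξ.1 twoPiI / twoPiI)
  leib ξ {X} a b := by
    rw [dd_apply, tm_one_mul, op_mul, map_add, lB_mul, lB_mul']
    rfl
  map ξ {X Y} f a := by
    have h1 : (tm 1 (W.map f a) : Base W.K (W.H X)) = baseLin (W.map f).toLinearMap (tm 1 a) := rfl
    rw [dd_apply, h1, op_lin D ξ.1 (fun a ha => by
      rw [← baseMap_lin]
      exact D.map f a ha), lB_lin]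
    rfl
  gr ξ {X} i a ha := by
    have h1 : (tm 1 a : Base W.K (W.H X)) = baseLin (H914.proj (W.isInternal X) i) (tm 1 a) := by
      rw [baseLin_tm, proj_same _ ha]
    rw [dd_apply, h1, op_lin D ξ.1 (D.graded X i), lB_lin]
    exact proj_mem _ i _
  tr ξ {X} a := by
    rw [dd_apply, lB_tr, op_tr, baseTr_tm, one_mul, mul_comm, ← Algebra.smul_def, map_smul,
      natCast_l, smul_eq_mul, mul_comm]
  cl ξ {X} j z hz := dd_tw D ((D.form X).cyc j z hz)

/-- **Linear maps which commute with the derivations up to a twist.** -/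
theorem dR_of_comm [IsAlgClosed F] {f : W.H X →ₗ[W.K] W.H Y} (p q : ℕ)
    (h : ∀ ξ x, (perAct D).d ξ Y (f x) = f ((perAct D).d ξ X x) +
      (((q : W.K) - p) * (perAct D).mu ξ) • f x) :
    ∀ a ∈ D.dR X, ∃ b ∈ D.dR Y, twoPiI ^ q • baseLin f a = twoPiI ^ p • b := by
  have h1 : ∀ (δ : Derivation F ℂ ℂ) x, op D δ Y (tm 1 (f x)) = baseLin f (op D δ X (tm 1 x)) +
      (((q : ℂ) - p) * (δ twoPiI / twoPiI)) • tm 1 (f x) := by
    intro δ x
    rw [← sub_eq_zero]
    refine eq_zero_of_lB fun l => ?_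
    have h2 := h (δ, l) x
    change dd D (δ, l) Y (f x) = f (dd D (δ, l) X x) +
      (((q : W.K) - p) * l (δ twoPiI / twoPiI)) • f x at h2
    rw [dd_apply, dd_apply, ← lB_lin] at h2
    have h3 : l (((q : ℂ) - p) * (δ twoPiI / twoPiI)) =
        ((q : W.K) - p) * l (δ twoPiI / twoPiI) := by
      rw [sub_mul, map_sub, natCast_l, natCast_l, ← sub_mul]
    rw [map_sub, h2, map_add, smul_tm, mul_one, lB_tm, h3, sub_self]
  have h2 : ∀ (δ : Derivation F ℂ ℂ) (a : Base W.K (W.H X)), op D δ Y (baseLin f a) =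
      baseLin f (op D δ X a) + (((q : ℂ) - p) * (δ twoPiI / twoPiI)) • baseLin f a := by
    intro δ a
    refine base_ind (p := fun a => op D δ Y (baseLin f a) =
      baseLin f (op D δ X a) + (((q : ℂ) - p) * (δ twoPiI / twoPiI)) • baseLin f a) ?_ ?_ ?_ a
    · rw [map_zero, map_zero, map_zero, map_zero, smul_zero, add_zero]
    · intro r c
      have h3 : (tm r c : Base W.K (W.H X)) = r • tm 1 c := by rw [smul_tm, mul_one]
      rw [h3, map_smul, map_smul, baseLin_tm, h1, map_smul, map_smul, smul_add, smul_comm r]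
    · intro a b ha hb
      rw [map_add, map_add, ha, hb, map_add, map_add, smul_add]
      abel
  intro a ha
  have hp : twoPiI ^ p ≠ 0 := pow_ne_zero _ twoPiI_ne
  refine ⟨(twoPiI ^ q / twoPiI ^ p) • baseLin f a, mem_of_op D fun δ => ?_, ?_⟩
  · have h3 : dC D δ Y ((twoPiI ^ q / twoPiI ^ p) • baseLin f a) =
        δ (twoPiI ^ q / twoPiI ^ p) • baseLin f a +
          (twoPiI ^ q / twoPiI ^ p) • dC D δ Y (baseLin f a) := dB_smul _ _ _ _
    have h4 : dC D δ Y (baseLin f a) = baseLin f (dC D δ X a) := dB_lin _ δ f a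
    have h5 : δ (twoPiI ^ q / twoPiI ^ p) =
        (twoPiI ^ q / twoPiI ^ p) * (((q : ℂ) - p) * (δ twoPiI / twoPiI)) := by
      have h6 : twoPiI ^ q = (twoPiI ^ q / twoPiI ^ p) * twoPiI ^ p := by field_simp
      have h7 := congrArg δ h6
      rw [der_mul, der_pow, der_pow] at h7
      have h8 : twoPiI ^ p * (δ (twoPiI ^ q / twoPiI ^ p) -
          (twoPiI ^ q / twoPiI ^ p) * (((q : ℂ) - p) * (δ twoPiI / twoPiI))) = 0 := by
        have h9 : twoPiI ^ p * ((twoPiI ^ q / twoPiI ^ p) *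
            (((q : ℂ) - p) * (δ twoPiI / twoPiI))) =
            twoPiI ^ q * (((q : ℂ) - p) * (δ twoPiI / twoPiI)) := by
          field_simp
        have h10 : (twoPiI ^ q / twoPiI ^ p) * (twoPiI ^ p * ((p : ℂ) * (δ twoPiI / twoPiI))) =
            twoPiI ^ q * ((p : ℂ) * (δ twoPiI / twoPiI)) := by
          field_simp
        rw [mul_sub, h9]
        rw [h10] at h7
        linear_combination -h7
      exact sub_eq_zero.1 ((mul_eq_zero.1 h8).resolve_left hp)
    rw [h3, h4, ← op_dR D δ ha, h5, map_smul, h2, smul_add, smul_smul]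
    abel
  · rw [smul_smul, mul_div_cancel₀ _ hp]

/-- **Common eigenvectors of the derivations.** -/
theorem line_of_eig [IsAlgClosed F] {t : W.H X} (ht : t ≠ 0)
    (h : ∀ ξ, ∃ r : W.K, (perAct D).d ξ X t = r • t) :
    ∃ z : ℂ, z ≠ 0 ∧ tm z t ∈ D.dR X := by
  -- a functional
  obtain ⟨φ, hφ⟩ : ∃ φ : W.H X →ₗ[W.K] W.K, φ t = 1 := by
    obtain ⟨ψ, hψ⟩ : ∃ ψ : W.H X →ₗ[W.K] W.K, ψ t ≠ 0 := by
      by_contra hcon
      push Not at hcon
      exact ht ((Module.forall_dual_apply_eq_zero_iff W.K t).1 hcon)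
    refine ⟨(ψ t)⁻¹ • ψ, ?_⟩
    rw [LinearMap.smul_apply, smul_eq_mul, inv_mul_cancel₀ hψ]
  have h1 : ∀ δ : Derivation F ℂ ℂ, ∃ c : ℂ, op D δ X (tm 1 t) = c • tm 1 t := by
    intro δ
    refine ⟨baseTr φ (op D δ X (tm 1 t)), ?_⟩
    rw [← sub_eq_zero]
    refine eq_zero_of_lB fun l => ?_
    obtain ⟨r, hr⟩ := h (δ, l)
    change lB l (W.H X) (op D δ X (tm 1 t)) = r • t at hr
    have h2 := lB_tr l φ (op D δ X (tm 1 t))
    rw [hr, map_smul, hφ, smul_eq_mul, mul_one] at h2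
    rw [map_sub, smul_tm, mul_one, lB_tm, hr, ← h2, sub_self]
  have hne : (tm 1 t : Base W.K (W.H X)) ≠ 0 := by
    intro h0
    have h2 := congrArg (baseTr φ) h0
    rw [baseTr_tm, hφ, map_one, mul_one, map_zero] at h2
    exact one_ne_zero h2
  obtain ⟨i0, hi0⟩ : ∃ i, (eb D X).repr (tm 1 t) i ≠ 0 := by
    by_contra hcon
    push Not at hcon
    exact hne ((eb D X).repr.map_eq_zero_iff.1 (Finsupp.ext hcon))
  refine ⟨((eb D X).repr (tm 1 t) i0)⁻¹, inv_ne_zero hi0, ?_⟩
  rw [eb_spec]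
  intro i
  refine mem_of_der fun δ => ?_
  obtain ⟨c, hc⟩ := h1 δ
  have h2 : ∀ j, δ ((eb D X).repr (tm 1 t) j) = -c * (eb D X).repr (tm 1 t) j := by
    have h3 := dC_expand D δ (tm 1 t : Base W.K (W.H X))
    have h4 : dC D δ X (tm 1 t : Base W.K (W.H X)) = tm (δ 1) t := rfl
    have h5 : δ 1 = 0 := Derivation.map_one_eq_zero δ
    rw [h4, h5, hc] at h3
    have h6 : (tm 0 t : Base W.K (W.H X)) = 0 := TensorProduct.zero_tmul _ _
    rw [h6] at h3
    intro j
    have h7 := congrArg (fun z => (eb D X).repr z j) h3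
    simp only [map_zero, map_add, map_smul, map_sum, Finsupp.add_apply, Finsupp.smul_apply,
      Finsupp.coe_zero, Pi.zero_apply, smul_eq_mul] at h7
    rw [Finset.sum_congr rfl (g := fun x => δ ((eb D X).repr (tm 1 t) x) •
      (Finsupp.single x (1 : ℂ))) (fun x _ => by rw [Basis.repr_self])] at h7
    have h8 : (∑ x, δ ((eb D X).repr (tm 1 t) x) •
        (Finsupp.single x (1 : ℂ) : Fin (form_dR D X).choose →₀ ℂ)) j =
        δ ((eb D X).repr (tm 1 t) j) := by
      rw [Finsupp.finsetSum_apply, Finset.sum_eq_single j]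
      · simp
      · intro x _ hx
        simp [hx]
      · intro h0
        exact absurd (Finset.mem_univ _) h0
    rw [h8] at h7
    linear_combination -h7
  have h3 : (eb D X).repr (tm ((eb D X).repr (tm 1 t) i0)⁻¹ t) i =
      ((eb D X).repr (tm 1 t) i0)⁻¹ * (eb D X).repr (tm 1 t) i := by
    have h4 : (tm ((eb D X).repr (tm 1 t) i0)⁻¹ t : Base W.K (W.H X)) =
        ((eb D X).repr (tm 1 t) i0)⁻¹ • tm 1 t := by rw [smul_tm, mul_one]
    rw [h4, map_smul, Finsupp.smul_apply, smul_eq_mul]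
  rw [h3]
  have h4 : (eb D X).repr (tm 1 t) i = ((eb D X).repr (tm 1 t) i0)⁻¹ *
      (eb D X).repr (tm 1 t) i * (eb D X).repr (tm 1 t) i0 := by
    field_simp
  have h5 := congrArg δ h4
  rw [der_mul, h2, h2] at h5
  have h6 : (eb D X).repr (tm 1 t) i0 * δ (((eb D X).repr (tm 1 t) i0)⁻¹ *
      (eb D X).repr (tm 1 t) i) = 0 := by
    have h7 : ((eb D X).repr (tm 1 t) i0)⁻¹ * (eb D X).repr (tm 1 t) i *
        (-c * (eb D X).repr (tm 1 t) i0) = -c * (eb D X).repr (tm 1 t) i := by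
      field_simp
    rw [h7] at h5
    linear_combination -h5
  exact (mul_eq_zero.1 h6).resolve_left hi0

end Pool.Agent.H88.GP
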