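import Mathlib

/-!
# Two-dimensional representations of Lie algebras: matrices of trace zero

The content of this file is taken from the library of earlier results (modules `R919.GT.Two`,
`R919.GT.Iso` and `R919.DR.Gen`).
-/

set_option linter.unusedSectionVars false
set_option autoImplicit false

namespace Pool.Agent.H88.GP

open Matrix Polynomial Module

section two

variable {F : Type} [Field F] [CharZero F] {B : Type} [Fintype B] [DecidableEq B]

/-- The matrices of trace zero. -/
def sl (F B : Type) [Field F] [Fintype B] [DecidableEq B] : Submodule F (Matrix B B F) :=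
  LinearMap.ker (Matrix.traceLinearMap B F F)

theorem mem_sl {x : Matrix B B F} : x ∈ sl F B ↔ trace x = 0 := by
  rw [sl, LinearMap.mem_ker]
  rfl

theorem brk_sl (x y : Matrix B B F) : x * y - y * x ∈ sl F B := by
  rw [mem_sl, trace_sub, trace_mul_comm, sub_self]

theorem conj_sl {g g' : Matrix B B F} (h : g' * g = 1) {x : Matrix B B F} (hx : x ∈ sl F B) :
    g * x * g' ∈ sl F B := by
  rw [mem_sl] at hx ⊢
  rw [trace_mul_comm, ← mul_assoc, h, one_mul, hx]

theorem ch (hB : Fintype.card B = 2) (x : Matrix B B F) :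
    x * x = trace x • x - x.det • (1 : Matrix B B F) := by
  have h := Matrix.aeval_self_charpoly x
  rw [Matrix.charpoly_of_card_eq_two _ hB] at h
  simp only [map_add, map_sub, map_pow, map_mul, aeval_X, aeval_C] at h
  rw [pow_two, ← Algebra.smul_def, Algebra.algebraMap_eq_smul_one] at h
  rw [eq_sub_iff_add_eq, ← sub_eq_zero]
  rw [← h]
  abel

theorem ch0 (hB : Fintype.card B = 2) {x : Matrix B B F} (hx : x ∈ sl F B) :
    x * x = -x.det • (1 : Matrix B B F) := by
  rw [ch hB, mem_sl.1 hx, zero_smul, zero_sub, neg_smul]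

/-- The anticommutator of matrices of trace zero. -/
theorem anti (hB : Fintype.card B = 2) {x y : Matrix B B F} (hx : x ∈ sl F B) (hy : y ∈ sl F B) :
    x * y + y * x = trace (x * y) • (1 : Matrix B B F) := by
  have h1 := ch0 hB (Submodule.add_mem _ hx hy)
  have h2 := ch0 hB hx
  have h3 := ch0 hB hy
  have h4 : x * y + y * x = (-(x + y).det + x.det + y.det) • (1 : Matrix B B F) := by
    have : x * y + y * x = (x + y) * (x + y) - x * x - y * y := by noncomm_ring
    rw [this, h1, h2, h3, add_smul, add_smul, neg_smul, neg_smul, neg_smul]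
    abel
  have h5 : trace (x * y + y * x) = 2 * trace (x * y) := by
    rw [trace_add, trace_mul_comm y x]
    ring
  have h6 : trace ((-(x + y).det + x.det + y.det) • (1 : Matrix B B F)) =
      2 * (-(x + y).det + x.det + y.det) := by
    rw [trace_smul, trace_one, hB, smul_eq_mul]
    push_cast
    ring
  rw [h4] at h5
  rw [h6] at h5
  have h7 : (-(x + y).det + x.det + y.det) = trace (x * y) :=
    mul_left_cancel₀ two_ne_zero h5
  rw [h4, h7]

theorem mul_eq (hB : Fintype.card B = 2) {x y : Matrix B B F} (hx : x ∈ sl F B)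
    (hy : y ∈ sl F B) :
    x * y = (2 : F)⁻¹ • (x * y - y * x) + ((2 : F)⁻¹ * trace (x * y)) • (1 : Matrix B B F) := by
  have h := anti hB hx hy
  rw [mul_smul, ← h, ← smul_add]
  have : x * y - y * x + (x * y + y * x) = (2 : F) • (x * y) := by
    rw [two_smul]
    abel
  rw [this, smul_smul, inv_mul_cancel₀ two_ne_zero, one_smul]

theorem det_eq (hB : Fintype.card B = 2) {x : Matrix B B F} (hx : x ∈ sl F B) :
    trace (x * x) = -2 * x.det := by
  rw [ch0 hB hx, trace_smul, trace_one, hB, smul_eq_mul]
  push_cast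
  ring

/-- The double commutator. -/
theorem dbl (hB : Fintype.card B = 2) {x y : Matrix B B F} (hx : x ∈ sl F B) (hy : y ∈ sl F B) :
    x * (x * y - y * x) - (x * y - y * x) * x = (-4 * x.det) • y - (2 * trace (x * y)) • x := by
  have h1 := ch0 hB hx
  have h2 := anti hB hx hy
  have h3 : x * y * x = trace (x * y) • x + x.det • y := by
    have : x * y * x = (x * y + y * x) * x - y * (x * x) := by noncomm_ring
    rw [this, h1, h2, smul_mul_assoc, one_mul, mul_smul_comm, mul_one, neg_smul, sub_neg_eq_add]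
  have h4 : x * (x * y - y * x) - (x * y - y * x) * x =
      (x * x) * y - (2 : F) • (x * y * x) + y * (x * x) := by
    rw [two_smul]
    noncomm_ring
  rw [h4, h1, h3, smul_mul_assoc, one_mul, mul_smul_comm, mul_one]
  module

theorem exists_two (hB : Fintype.card B = 2) : ∃ a b : B, a ≠ b ∧ ∀ c, c = a ∨ c = b := by
  rw [← Finset.card_univ, Finset.card_eq_two] at hB
  obtain ⟨a, b, hab, h⟩ := hB
  refine ⟨a, b, hab, fun c => ?_⟩
  have h1 := Finset.mem_univ c
  rw [h] at h1
  simpa using h1

theorem sum_two {a b : B} (hab : a ≠ b) (h : ∀ c, c = a ∨ c = b) {M : Type} [AddCommMonoid M]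
    (g : B → M) : ∑ c, g c = g a + g b := by
  have : (Finset.univ : Finset B) = {a, b} := by
    ext c
    simp only [Finset.mem_univ, Finset.mem_insert, Finset.mem_singleton, true_iff]
    exact h c
  rw [this, Finset.sum_pair hab]

/-- A matrix of trace zero which commutes with `x ≠ 0` of trace zero is a multiple of it. -/
theorem centr (hB : Fintype.card B = 2) {x y : Matrix B B F} (hx : x ∈ sl F B) (hy : y ∈ sl F B)
    (hx0 : x ≠ 0) (h : x * y = y * x) : ∃ r : F, y = r • x := by
  obtain ⟨a, b, hab, hall⟩ := exists_two hB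
  have tx : x b b = -x a a := by
    have := mem_sl.1 hx
    rw [trace, sum_two hab hall] at this
    simp only [diag_apply] at this
    linear_combination this
  have ty : y b b = -y a a := by
    have := mem_sl.1 hy
    rw [trace, sum_two hab hall] at this
    simp only [diag_apply] at this
    linear_combination this
  have e1 := congrFun (congrFun h a) a
  have e2 := congrFun (congrFun h a) b
  have e3 := congrFun (congrFun h b) a
  simp only [Matrix.mul_apply, sum_two hab hall, tx, ty] at e1 e2 e3
  have key : ∀ r : F, y a a = r * x a a → y a b = r * x a b → y b a = r * x b a →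
      y = r • x := by
    intro r h1 h2 h3
    ext c d
    rw [Matrix.smul_apply, smul_eq_mul]
    rcases hall c with rfl | rfl <;> rcases hall d with rfl | rfl
    · exact h1
    · exact h2
    · exact h3
    · rw [tx, ty, h1]
      ring
  by_cases h1 : x a a = 0
  · by_cases h2 : x a b = 0
    · have h3 : x b a ≠ 0 := by
        intro h3
        apply hx0
        ext c d
        rcases hall c with rfl | rfl <;> rcases hall d with rfl | rfl
        · exact h1
        · exact h2
        · exact h3
        · rw [tx, h1]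
          simp
      refine ⟨y b a / x b a, key _ ?_ ?_ ?_⟩
      · rw [h1, mul_zero]
        rw [h1] at e3
        have : (2 : F) * x b a * y a a = 0 := by linear_combination e3
        have h4 : (2 : F) * x b a ≠ 0 := mul_ne_zero two_ne_zero h3
        exact (mul_eq_zero.1 this).resolve_left h4
      · rw [h2, mul_zero]
        rw [h2] at e1
        have : y a b * x b a = 0 := by linear_combination -e1
        exact (mul_eq_zero.1 this).resolve_right h3
      · field_simp
    · refine ⟨y a b / x a b, key _ ?_ ?_ ?_⟩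
      · rw [h1, mul_zero]
        rw [h1] at e2
        have : (2 : F) * x a b * y a a = 0 := by linear_combination -e2
        have h4 : (2 : F) * x a b ≠ 0 := mul_ne_zero two_ne_zero h2
        exact (mul_eq_zero.1 this).resolve_left h4
      · field_simp
      · field_simp
        linear_combination e1
  · refine ⟨y a a / x a a, key _ ?_ ?_ ?_⟩
    · field_simp
    · field_simp
      have : (2 : F) * (y a b * x a a - y a a * x a b) = 0 := by linear_combination e2
      have h4 := (mul_eq_zero.1 this).resolve_left two_ne_zero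
      linear_combination h4
    · field_simp
      have : (2 : F) * (y b a * x a a - y a a * x b a) = 0 := by linear_combination -e3
      have h4 := (mul_eq_zero.1 this).resolve_left two_ne_zero
      linear_combination h4

theorem finrank_sl (hB : Fintype.card B = 2) : finrank F (sl F B) = 3 := by
  have h1 := LinearMap.finrank_range_add_finrank_ker (Matrix.traceLinearMap B F F)
  have h2 : finrank F (LinearMap.range (Matrix.traceLinearMap B F F)) = 1 := by
    have : LinearMap.range (Matrix.traceLinearMap B F F) = ⊤ := by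
      rw [LinearMap.range_eq_top]
      intro r
      refine ⟨(r / 2) • (1 : Matrix B B F), ?_⟩
      change trace ((r / 2) • (1 : Matrix B B F)) = r
      rw [trace_smul, trace_one, hB, smul_eq_mul]
      push_cast
      field_simp
    rw [this, finrank_top, finrank_self]
  rw [h2, Module.finrank_matrix, hB, finrank_self] at h1
  change finrank F (LinearMap.ker (Matrix.traceLinearMap B F F)) = 3
  omega

end two

section hom

variable {F : Type} [Field F] [CharZero F] {B B' : Type} [Fintype B] [DecidableEq B]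
  [Fintype B'] [DecidableEq B']

/-- The part of trace zero. -/
noncomputable def tl (F B : Type) [Field F] [Fintype B] [DecidableEq B] :
    Matrix B B F →ₗ[F] Matrix B B F :=
  LinearMap.id - (Matrix.traceLinearMap B F F).smulRight ((2 : F)⁻¹ • (1 : Matrix B B F))

theorem tl_apply (x : Matrix B B F) : tl F B x = x - trace x • (2 : F)⁻¹ • (1 : Matrix B B F) := rfl

theorem tl_sl (hB : Fintype.card B = 2) (x : Matrix B B F) : tl F B x ∈ sl F B := by
  rw [mem_sl, tl_apply, trace_sub, trace_smul, trace_smul, trace_one, hB, smul_eq_mul,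
    smul_eq_mul]
  push_cast
  rw [inv_mul_cancel₀ two_ne_zero, mul_one, sub_self]

theorem tl_of_sl {x : Matrix B B F} (hx : x ∈ sl F B) : tl F B x = x := by
  rw [tl_apply, mem_sl.1 hx, zero_smul, sub_zero]

/-- A Lie homomorphism of the Lie algebras of matrices of trace zero which respects the trace form
extends to a homomorphism of algebras. -/
theorem extend_hom (hB : Fintype.card B = 2) (hB' : Fintype.card B' = 2)
    (φ : Matrix B B F →ₗ[F] Matrix B' B' F) (hsl : ∀ x ∈ sl F B, φ x ∈ sl F B')
    (hbr : ∀ x ∈ sl F B, ∀ y ∈ sl F B, φ (x * y - y * x) = φ x * φ y - φ y * φ x)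
    (htr : ∀ x ∈ sl F B, ∀ y ∈ sl F B, trace (φ x * φ y) = trace (x * y)) :
    ∃ ψ : Matrix B B F →ₗ[F] Matrix B' B' F, ψ 1 = 1 ∧ (∀ x ∈ sl F B, ψ x = φ x) ∧
      ∀ x y, ψ (x * y) = ψ x * ψ y := by
  let ψ : Matrix B B F →ₗ[F] Matrix B' B' F := φ ∘ₗ tl F B +
    (Matrix.traceLinearMap B F F).smulRight ((2 : F)⁻¹ • (1 : Matrix B' B' F))
  have hψ : ∀ x, ψ x = φ (tl F B x) + trace x • (2 : F)⁻¹ • (1 : Matrix B' B' F) := fun _ => rfl
  have h1 : ψ 1 = 1 := by
    have h : tl F B 1 = 0 := by
      rw [tl_apply, trace_one, hB, smul_smul]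
      push_cast
      rw [mul_inv_cancel₀ two_ne_zero, one_smul, sub_self]
    rw [hψ, h, map_zero, zero_add, trace_one, hB, smul_smul]
    push_cast
    rw [mul_inv_cancel₀ two_ne_zero, one_smul]
  have h2 : ∀ x ∈ sl F B, ψ x = φ x := by
    intro x hx
    rw [hψ, tl_of_sl hx, mem_sl.1 hx, zero_smul, add_zero]
  have h3 : ∀ x ∈ sl F B, ∀ y ∈ sl F B, ψ (x * y) = ψ x * ψ y := by
    intro x hx y hy
    rw [h2 x hx, h2 y hy, mul_eq hB' (hsl x hx) (hsl y hy), ← hbr x hx y hy, htr x hx y hy]
    conv_lhs => rw [mul_eq hB hx hy]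
    rw [map_add, map_smul, map_smul, h2 _ (brk_sl x y), h1]
  refine ⟨ψ, h1, h2, fun x y => ?_⟩
  have hx : x = tl F B x + (trace x * (2 : F)⁻¹) • (1 : Matrix B B F) := by
    rw [tl_apply, smul_smul]
    abel
  have hy : y = tl F B y + (trace y * (2 : F)⁻¹) • (1 : Matrix B B F) := by
    rw [tl_apply, smul_smul]
    abel
  obtain ⟨a, ha, ha'⟩ : ∃ a ∈ sl F B, ∃ r : F, x = a + r • 1 := ⟨_, tl_sl hB x, _, hx⟩
  obtain ⟨b, hb, hb'⟩ : ∃ a ∈ sl F B, ∃ r : F, y = a + r • 1 := ⟨_, tl_sl hB y, _, hy⟩
  obtain ⟨r, rfl⟩ := ha'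
  obtain ⟨s, rfl⟩ := hb'
  have e : (a + r • (1 : Matrix B B F)) * (b + s • 1) = a * b + s • a + r • b + (r * s) • 1 := by
    simp only [add_mul, mul_add, smul_mul_assoc, mul_smul_comm, one_mul, mul_one, smul_add,
      smul_smul, mul_comm s r]
    abel
  have e' : (ψ a + r • (1 : Matrix B' B' F)) * (ψ b + s • 1) =
      ψ a * ψ b + s • ψ a + r • ψ b + (r * s) • 1 := by
    simp only [add_mul, mul_add, smul_mul_assoc, mul_smul_comm, one_mul, mul_one, smul_add,
      smul_smul, mul_comm s r]
    abel
  rw [e]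
  simp only [map_add, map_smul, h1]
  rw [e', h3 a ha b hb]

/-- A homomorphism of the matrix algebras is given by an intertwiner. -/
theorem exists_intertwiner (hB : Fintype.card B = 2) (hB' : Fintype.card B' = 2)
    (ψ : Matrix B B F →ₗ[F] Matrix B' B' F) (h1 : ψ 1 = 1) (hmul : ∀ x y, ψ (x * y) = ψ x * ψ y) :
    ∃ (T : Matrix B' B F) (T' : Matrix B B' F), T * T' = 1 ∧ T' * T = 1 ∧
      ∀ x, ψ x * T = T * x := by
  have hne : ∃ b : B, ψ (Matrix.single b b 1) ≠ 0 := by
    by_contra hcon
    push Not at hcon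
    have h2 : (1 : Matrix B B F) = ∑ b, Matrix.single b b 1 := by
      ext i j
      by_cases h : i = j
      · subst h
        simp [Matrix.sum_apply, Matrix.single_apply]
      · rw [Matrix.one_apply_ne h, Matrix.sum_apply]
        symm
        refine Finset.sum_eq_zero fun b _ => ?_
        rw [Matrix.single_apply, if_neg]
        rintro ⟨rfl, rfl⟩
        exact h rfl
    have h3 : (1 : Matrix B' B' F) = 0 := by
      rw [← h1, h2, map_sum]
      exact Finset.sum_eq_zero fun b _ => hcon b
    have h4 : trace (1 : Matrix B' B' F) = 0 := by rw [h3, trace_zero]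
    rw [trace_one, hB'] at h4
    exact two_ne_zero h4
  obtain ⟨b₀, hb₀⟩ := hne
  obtain ⟨w, hw⟩ : ∃ w : B' → F, ψ (Matrix.single b₀ b₀ 1) *ᵥ w ≠ 0 := by
    by_contra hcon
    push Not at hcon
    apply hb₀
    ext i j
    have h2 := congrFun (hcon (Pi.single j 1)) i
    rw [Matrix.mulVec_single_one] at h2
    simpa using h2
  -- the intertwiner
  let T : Matrix B' B F := Matrix.of fun a b => (ψ (Matrix.single b b₀ 1) *ᵥ w) a
  have hT : ∀ v : B → F, T *ᵥ v = ψ (∑ b, v b • Matrix.single b b₀ 1) *ᵥ w := by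
    intro v
    funext a
    rw [map_sum, Matrix.sum_mulVec, Finset.sum_apply]
    simp only [map_smul, Matrix.smul_mulVec, Pi.smul_apply, smul_eq_mul]
    rw [Matrix.mulVec, dotProduct]
    exact Finset.sum_congr rfl fun b _ => by rw [mul_comm]; rfl
  have hsum : ∀ v : B → F, ∑ b, v b • Matrix.single b b₀ (1 : F) =
      Matrix.vecMulVec v (Pi.single b₀ 1) := by
    intro v
    ext i j
    rw [Matrix.sum_apply, Matrix.vecMulVec_apply, Finset.sum_eq_single i]
    · by_cases h : j = b₀
      · subst h
        simp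
      · simp [h, Ne.symm h]
    · intro b _ hb
      simp [hb]
    · intro h
      exact absurd (Finset.mem_univ i) h
  have hint : ∀ x, ψ x * T = T * x := by
    intro x
    have h2 : ∀ v : B → F, (ψ x * T) *ᵥ v = (T * x) *ᵥ v := by
      intro v
      rw [← Matrix.mulVec_mulVec, ← Matrix.mulVec_mulVec, hT, hT, Matrix.mulVec_mulVec, ← hmul]
      rw [hsum, hsum, Matrix.mul_vecMulVec]
    ext i j
    have h3 := congrFun (h2 (Pi.single j 1)) i
    rw [Matrix.mulVec_single_one, Matrix.mulVec_single_one] at h3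
    simpa using h3
  have hT0 : T *ᵥ (Pi.single b₀ 1) ≠ 0 := by
    rw [hT, Finset.sum_eq_single b₀]
    · rw [Pi.single_eq_same, one_smul]
      exact hw
    · intro b _ hb
      rw [Pi.single_eq_of_ne hb, zero_smul]
    · intro h
      exact absurd (Finset.mem_univ _) h
  -- it is injective
  have hinj : Function.Injective T.mulVecLin := by
    rw [injective_iff_map_eq_zero]
    intro v hv
    by_contra hv0
    obtain ⟨b, hb⟩ := Function.ne_iff.1 hv0
    apply hT0
    have h2 : Pi.single b₀ (1 : F) = Matrix.single b₀ b (v b)⁻¹ *ᵥ v := by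
      funext c
      rw [Matrix.single_mulVec]
      rw [Function.update_apply]
      by_cases hc : c = b₀
      · subst hc
        rw [Pi.single_eq_same, if_pos rfl, inv_mul_cancel₀ hb]
      · rw [Pi.single_eq_of_ne hc, if_neg hc]
        rfl
    have hv' : T *ᵥ v = 0 := hv
    rw [h2, Matrix.mulVec_mulVec, ← hint, ← Matrix.mulVec_mulVec, hv', Matrix.mulVec_zero]
  have hcard : finrank F (B → F) = finrank F (B' → F) := by
    rw [Module.finrank_fintype_fun_eq_card, Module.finrank_fintype_fun_eq_card, hB, hB']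
  let e : (B → F) ≃ₗ[F] (B' → F) := LinearEquiv.ofInjectiveOfFinrankEq T.mulVecLin hinj hcard
  have he : ∀ v, e v = T *ᵥ v := fun v => rfl
  let T' : Matrix B B' F := LinearMap.toMatrix' (e.symm : (B' → F) →ₗ[F] (B → F))
  have hT' : ∀ u, T' *ᵥ u = e.symm u := by
    intro u
    exact LinearMap.toMatrix'_mulVec _ _
  refine ⟨T, T', ?_, ?_, hint⟩
  · have h2 : ∀ u : B' → F, (T * T') *ᵥ u = (1 : Matrix B' B' F) *ᵥ u := by
      intro u
      rw [← Matrix.mulVec_mulVec, hT', ← he, LinearEquiv.apply_symm_apply, Matrix.one_mulVec]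
    exact Matrix.ext_of_mulVec_single fun j => h2 _
  · have h2 : ∀ u : B → F, (T' * T) *ᵥ u = (1 : Matrix B B F) *ᵥ u := by
      intro u
      rw [← Matrix.mulVec_mulVec, hT', ← he, LinearEquiv.symm_apply_apply, Matrix.one_mulVec]
    exact Matrix.ext_of_mulVec_single fun j => h2 _

end hom

section gen2

variable {F : Type} [Field F] [CharZero F] {C : Type} [Fintype C] [DecidableEq C]

/-- The standard basis of the matrices of trace zero. -/
theorem std (hC : Fintype.card C = 2) : ∃ h ∈ sl F C, ∃ e ∈ sl F C, ∃ f ∈ sl F C,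
    h * e - e * h = (2 : F) • e ∧ h * f - f * h = (-2 : F) • f ∧ e * f - f * e = h ∧ e ≠ 0 ∧
    (∀ y ∈ sl F C, ∃ p q r : F, y = p • h + q • e + r • f) := by
  obtain ⟨a, b, hab, hall⟩ := exists_two hC
  have hba := hab.symm
  refine ⟨Matrix.single a a 1 - Matrix.single b b 1, ?_, Matrix.single a b 1, ?_,
    Matrix.single b a 1, ?_, ?_, ?_, ?_, ?_, ?_⟩
  · rw [mem_sl, trace_sub, Matrix.trace_single_eq_same, Matrix.trace_single_eq_same, sub_self]
  · rw [mem_sl, Matrix.trace_single_eq_of_ne _ _ _ hab]
  · rw [mem_sl, Matrix.trace_single_eq_of_ne _ _ _ hba]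
  · rw [sub_mul, mul_sub, Matrix.single_mul_single_same, Matrix.single_mul_single_of_ne _ _ _ _ hba,
      Matrix.single_mul_single_of_ne _ _ _ _ hba, Matrix.single_mul_single_same, two_smul]
    simp
  · rw [sub_mul, mul_sub, Matrix.single_mul_single_same, Matrix.single_mul_single_of_ne _ _ _ _ hab,
      Matrix.single_mul_single_of_ne _ _ _ _ hab, Matrix.single_mul_single_same, neg_smul,
      two_smul]
    simp
    abel
  · rw [Matrix.single_mul_single_same, Matrix.single_mul_single_same, mul_one]
  · intro h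
    have h1 := congrFun (congrFun h a) b
    rw [Matrix.single_apply_same] at h1
    exact one_ne_zero h1
  · intro y hy
    refine ⟨y a a, y a b, y b a, ?_⟩
    have ht : y b b = -y a a := by
      rw [mem_sl, Matrix.trace, sum_two hab hall] at hy
      simp only [Matrix.diag_apply] at hy
      linear_combination hy
    ext i j
    rcases hall i with rfl | rfl <;> rcases hall j with rfl | rfl
    · simp [hab, hba]
    · simp [hab, hba]
    · simp [hab, hba]
    · rw [ht]
      simp [hab, hba]

/-- A nonzero ideal of the Lie algebra of the matrices of trace zero is everything. -/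
theorem ideal_all (hC : Fintype.card C = 2) {P : Submodule F (Matrix C C F)}
    (hid : ∀ x ∈ P, ∀ y ∈ sl F C, y * x - x * y ∈ P) {s : Matrix C C F} (hs : s ∈ P)
    (hsl : s ∈ sl F C) (hs0 : s ≠ 0) : sl F C ≤ P := by
  obtain ⟨h, hh, e, he, f, hf, h1, h2, h3, _, hdec⟩ := std (F := F) hC
  have two : (2 : F) ≠ 0 := two_ne_zero
  have e_of_h : h ∈ P → e ∈ P := by
    intro hP
    have h4 := hid h hP e he
    have h5 : e = (-(2 : F)⁻¹) • (e * h - h * e) := by
      have h6 : e * h - h * e = -((2 : F) • e) := by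
        rw [← h1]
        abel
      rw [h6, smul_neg, neg_smul, neg_neg, smul_smul, inv_mul_cancel₀ two, one_smul]
    rw [h5]
    exact P.smul_mem _ h4
  have f_of_h : h ∈ P → f ∈ P := by
    intro hP
    have h4 := hid h hP f hf
    have h5 : f = (2 : F)⁻¹ • (f * h - h * f) := by
      have h6 : f * h - h * f = (2 : F) • f := by
        have : f * h - h * f = -(h * f - f * h) := by abel
        rw [this, h2, neg_smul, neg_neg]
      rw [h6, smul_smul, inv_mul_cancel₀ two, one_smul]
    rw [h5]
    exact P.smul_mem _ h4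
  have h_of_e : e ∈ P → h ∈ P := by
    intro hP
    have h4 := hid e hP f hf
    have h5 : h = -(f * e - e * f) := by
      rw [neg_sub, h3]
    rw [h5]
    exact P.neg_mem h4
  have h_of_f : f ∈ P → h ∈ P := by
    intro hP
    have h4 := hid f hP e he
    rwa [h3] at h4
  have hP : h ∈ P := by
    obtain ⟨p, q, r, hpqr⟩ := hdec s hsl
    have k1 : h * s - s * h = (2 * q) • e - (2 * r) • f := by
      rw [hpqr]
      have : h * (p • h + q • e + r • f) - (p • h + q • e + r • f) * h =
          q • (h * e - e * h) + r • (h * f - f * h) := by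
        simp only [mul_add, add_mul, mul_smul_comm, smul_mul_assoc, smul_sub]
        abel
      rw [this, h1, h2, smul_smul, smul_smul, mul_neg, neg_smul, sub_eq_add_neg, mul_comm q,
        mul_comm r]
    have k2 : h * (h * s - s * h) - (h * s - s * h) * h = (4 * q) • e + (4 * r) • f := by
      rw [k1]
      have : h * ((2 * q) • e - (2 * r) • f) - ((2 * q) • e - (2 * r) • f) * h =
          (2 * q) • (h * e - e * h) - (2 * r) • (h * f - f * h) := by
        simp only [mul_sub, sub_mul, mul_smul_comm, smul_mul_assoc, smul_sub]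
        abel
      rw [this, h1, h2, smul_smul, smul_smul, sub_eq_add_neg, ← neg_smul]
      congr 2 <;> ring
    have m1 : (2 * q) • e - (2 * r) • f ∈ P := by
      rw [← k1]
      exact hid s hs h hh
    have m2 : (4 * q) • e + (4 * r) • f ∈ P := by
      rw [← k2]
      exact hid _ (by rw [k1]; exact m1) h hh
    have m3 : (8 * q) • e ∈ P := by
      have : (8 * q) • e = ((4 * q) • e + (4 * r) • f) + (2 : F) • ((2 * q) • e - (2 * r) • f) := by
        module
      rw [this]
      exact P.add_mem m2 (P.smul_mem _ m1)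
    have m4 : (8 * r) • f ∈ P := by
      have : (8 * r) • f = ((4 * q) • e + (4 * r) • f) - (2 : F) • ((2 * q) • e - (2 * r) • f) := by
        module
      rw [this]
      exact P.sub_mem m2 (P.smul_mem _ m1)
    have eight : (8 : F) ≠ 0 := by norm_num
    by_cases hq : q = 0
    · by_cases hr : r = 0
      · rw [hq, hr, zero_smul, zero_smul, add_zero, add_zero] at hpqr
        have hp : p ≠ 0 := by
          rintro rfl
          rw [zero_smul] at hpqr
          exact hs0 hpqr
        rw [hpqr] at hs
        exact (Submodule.smul_mem_iff _ hp).1 hs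
      · exact h_of_f ((Submodule.smul_mem_iff _ (mul_ne_zero eight hr)).1 m4)
    · exact h_of_e ((Submodule.smul_mem_iff _ (mul_ne_zero eight hq)).1 m3)
  intro y hy
  obtain ⟨p, q, r, rfl⟩ := hdec y hy
  exact P.add_mem (P.add_mem (P.smul_mem _ hP) (P.smul_mem _ (e_of_h hP)))
    (P.smul_mem _ (f_of_h hP))

end gen2

section fam

variable {F : Type} [Field F] [CharZero F] {J : Type} {B : J → Type} [∀ j, Fintype (B j)]
  [∀ j, DecidableEq (B j)] {M : Submodule F (∀ j, Matrix (B j) (B j) F)}

/-- Elements which are zero at finitely many indices. -/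
theorem conc_gen [DecidableEq J] (hbr : ∀ x ∈ M, ∀ y ∈ M, x * y - y * x ∈ M) {i : J}
    (hi : Fintype.card (B i) = 2) (hsl : ∀ x ∈ M, x i ∈ sl F (B i))
    (hfull : ∀ y ∈ sl F (B i), ∃ z ∈ M, z i = y) (T : Finset J)
    (hT : ∀ t ∈ T, ∃ x ∈ M, x t = 0 ∧ x i ≠ 0) :
    ∀ y ∈ sl F (B i), ∃ z ∈ M, z i = y ∧ ∀ t ∈ T, z t = 0 := by
  let P : Finset J → Submodule F (∀ j, Matrix (B j) (B j) F) := fun T =>
    { carrier := {z | z ∈ M ∧ ∀ t ∈ T, z t = 0}
      zero_mem' := ⟨Submodule.zero_mem _, fun _ _ => rfl⟩
      add_mem' := by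
        rintro a b ⟨ha, ha'⟩ ⟨hb, hb'⟩
        exact ⟨Submodule.add_mem _ ha hb, fun t ht => by
          rw [Pi.add_apply, ha' t ht, hb' t ht, add_zero]⟩
      smul_mem' := by
        rintro r a ⟨ha, ha'⟩
        exact ⟨Submodule.smul_mem _ _ ha, fun t ht => by
          rw [Pi.smul_apply, ha' t ht, smul_zero]⟩ }
  have hall : ∀ T : Finset J, (∃ x ∈ P T, x i ≠ 0) → ∀ y ∈ sl F (B i), ∃ z ∈ P T, z i = y := by
    rintro T ⟨x, hx, hx0⟩
    have h1 := ideal_all hi (P := (P T).map (LinearMap.proj i)) (by
      rintro _ ⟨a, ha, rfl⟩ y hy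
      obtain ⟨z, hz, rfl⟩ := hfull y hy
      refine ⟨z * a - a * z, ⟨hbr z hz a ha.1, fun t ht => ?_⟩, rfl⟩
      change z t * a t - a t * z t = 0
      rw [ha.2 t ht, mul_zero, zero_mul, sub_zero]) (s := x i) ⟨x, hx, rfl⟩ (hsl x hx.1) hx0
    intro y hy
    obtain ⟨z, hz, hzy⟩ := h1 hy
    exact ⟨z, hz, hzy⟩
  obtain ⟨h, hh, e, he, f, hf, h1, h2, h3, he0, hdec⟩ := std (F := F) hi
  have hne : ∀ T : Finset J, (∀ t ∈ T, ∃ x ∈ M, x t = 0 ∧ x i ≠ 0) → ∃ x ∈ P T, x i ≠ 0 := by
    intro T
    induction T using Finset.induction_on with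
    | empty =>
      intro _
      obtain ⟨z, hz, hzs⟩ := hfull e he
      exact ⟨z, ⟨hz, fun t ht => absurd ht (Finset.notMem_empty t)⟩, by rw [hzs]; exact he0⟩
    | insert t T ht ih =>
      intro hT
      obtain ⟨a, ha, ha'⟩ := hall T (ih fun t ht => hT t (Finset.mem_insert_of_mem ht)) h hh
      obtain ⟨x, hx, hxt, hxi⟩ := hT t (Finset.mem_insert_self t T)
      obtain ⟨b, hb, hb'⟩ := hall {t} ⟨x, ⟨hx, fun u hu => by
        rw [Finset.mem_singleton.1 hu, hxt]⟩, hxi⟩ e he
      refine ⟨a * b - b * a, ⟨hbr a ha.1 b hb.1, fun u hu => ?_⟩, ?_⟩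
      · change a u * b u - b u * a u = 0
        rcases Finset.mem_insert.1 hu with rfl | hu
        · rw [hb.2 u (Finset.mem_singleton_self u), zero_mul, mul_zero, sub_zero]
        · rw [ha.2 u hu, zero_mul, mul_zero, sub_zero]
      · change a i * b i - b i * a i ≠ 0
        rw [ha', hb', h1]
        exact smul_ne_zero two_ne_zero he0
  intro y hy
  obtain ⟨z, hz, hzy⟩ := hall T (hne T hT) y hy
  exact ⟨z, hz.1, hzy, hz.2⟩

end fam

end Pool.Agent.H88.GP
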